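import Pool.Agent.Work.MP_8f25a0_lc.Cod.Tourn

/-!
# Fixed codimension: the upper bound
-/

namespace Pool.Agent.Work.MP_8f25a0_lc.Cod

open Finset

variable {n k c : ℕ}

/-- the algorithm: a tournament, and an estimate for its winner -/
noncomputable def algoT (S : ℕ → Finset (Fin n)) (t : ℕ → ℕ) (d Q : ℕ)
    (ω : Om n t d × (Fin Q → Cube n)) : Tree n :=
  tourn S t d 0 ω.1 fun A =>
    learn (pts ω.2 A).toList fun g => Tree.out ((1 - em A g ω.2 / Q) / 2)

theorem eval_algoT (S : ℕ → Finset (Fin n)) (t : ℕ → ℕ) (d Q : ℕ) (f : Cube n → Bool)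
    (ω : Om n t d × (Fin Q → Cube n)) :
    (algoT S t d Q ω).eval f = (1 - em (W S t f d 0 ω.1) f ω.2 / Q) / 2 := by
  unfold algoT
  rw [eval_tourn, eval_learn]
  simp only [Tree.eval]
  rw [em_congr (f := restr f (pts ω.2 (W S t f d 0 ω.1)).toList) (g := f)]
  intro w hw
  simp [restr, hw]

theorem depth_algoT {S : ℕ → Finset (Fin n)} (hS : ∀ j, (S j).card = c) (t : ℕ → ℕ) (d Q : ℕ)
    (ω : Om n t d × (Fin Q → Cube n)) :
    (algoT S t d Q ω).depth ≤ num t c d + Q * 2 ^ c := by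
  unfold algoT
  apply depth_tourn hS
  intro A hA
  have h := depth_learn (pts ω.2 A).toList
    (fun g => Tree.out ((1 - em A g ω.2 / Q) / 2)) (D := 0) (fun g => le_of_eq rfl)
  have h2 := card_pts ω.2 A
  rw [length_toList] at h
  rw [hA] at h2
  omega

theorem approximates_algoT (hn : n = k + c) {S : ℕ → Finset (Fin n)} (hS : ∀ j, (S j).card = c)
    {d Q : ℕ} (hd : ∀ A : Finset (Fin n), A.card = c → ∃ i, i < 2 ^ d ∧ S i = A) (hQ : 0 < Q)
    {t : ℕ → ℕ} {e p : ℕ → ℝ} (he : ∀ l, 0 ≤ e l)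
    (hp : ∀ l, 4 * Real.exp (-(t (l + 1) * (e (l + 1) / 2) ^ 2 / 2)) ≤ p (l + 1)) {ε : ℝ}
    (hε : 0 < ε) (hes : ∑ a ∈ range d, e (a + 1) ≤ ε) (hps : ∑ a ∈ range d, p (a + 1) ≤ 1 / 6)
    (h2 : 2 * Real.exp (-(Q * ε ^ 2 / 2)) ≤ 1 / 6) :
    ∃ A : PMF (Tree n), Approximates n k ε (num t c d + Q * 2 ^ c) A := by
  classical
  refine ⟨(PMF.uniformOfFintype (Om n t d × (Fin Q → Cube n))).map (algoT S t d Q), ?_, ?_⟩
  · intro T hT
    rw [PMF.support_map] at hT
    obtain ⟨ω, -, rfl⟩ := hT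
    exact depth_algoT hS t d Q ω
  · intro f
    rw [PMF.toOuterMeasure_map_apply]
    apply uniform_ge
    obtain ⟨A, hA, hAd⟩ := exists_vS (c := c) hn f
    obtain ⟨i, hi, rfl⟩ := hd A hA
    have hQR : (0 : ℝ) < Q := by exact_mod_cast hQ
    have hW : ∀ (l j : ℕ) (ω : Om n t l), (W S t f l j ω).card = c := by
      intro l
      induction l with
      | zero => intro j ω; exact hS j
      | succ l ih =>
        intro j ω
        simp only [W]
        rcases win_eq f ω.2 (W S t f l (2 * j) ω.1) (W S t f l (2 * j + 1) ω.1) with h | h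
        · rw [h]; exact ih _ _
        · rw [h]; exact ih _ _
    have key : ∀ ω : Om n t d × (Fin Q → Cube n),
        (if ω ∈ (algoT S t d Q ⁻¹' {T | |T.eval f - distK k f| ≤ ε}) then (0 : ℝ) else 1) ≤
        (if vS (W S t f d 0 ω.1) f < vS (S i) f - ∑ a ∈ range d, e (a + 1)
          then (1 : ℝ) else 0) +
        (if Q * ε ≤ |(∑ j, XS (W S t f d 0 ω.1) f (ω.2 j)) - Q * avg (XS (W S t f d 0 ω.1) f)|
          then (1 : ℝ) else 0) := by
      intro ω
      have n1 : ∀ (p : Prop) [Decidable p], (0 : ℝ) ≤ if p then 1 else 0 := by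
        intro p _; split_ifs <;> norm_num
      by_cases h : ω ∈ (algoT S t d Q ⁻¹' {T | |T.eval f - distK k f| ≤ ε})
      · rw [if_pos h]
        exact add_nonneg (n1 _) (n1 _)
      · rw [if_neg h]
        simp only [Set.mem_preimage, Set.mem_ofPred_eq, eval_algoT] at h
        by_cases h3 : vS (W S t f d 0 ω.1) f < vS (S i) f - ∑ a ∈ range d, e (a + 1)
        · rw [if_pos h3]
          have := n1 (Q * ε ≤
            |(∑ j, XS (W S t f d 0 ω.1) f (ω.2 j)) - Q * avg (XS (W S t f d 0 ω.1) f)|)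
          linarith
        · rw [if_neg h3]
          by_cases h4 : Q * ε ≤
            |(∑ j, XS (W S t f d 0 ω.1) f (ω.2 j)) - Q * avg (XS (W S t f d 0 ω.1) f)|
          · rw [if_pos h4]
            norm_num
          · exfalso
            apply h
            rw [not_lt] at h3
            rw [not_le] at h4
            have e1 : avg (XS (W S t f d 0 ω.1) f) = vS (W S t f d 0 ω.1) f := rfl
            have e2 : (∑ j, XS (W S t f d 0 ω.1) f (ω.2 j)) = em (W S t f d 0 ω.1) f ω.2 := rfl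
            rw [e1, e2] at h4
            have h5 := distK_le_vS hn (hW d 0 ω.1) f
            generalize vS (W S t f d 0 ω.1) f = v at h3 h4 h5
            generalize em (W S t f d 0 ω.1) f ω.2 = m at h4 ⊢
            have h6 : |m / Q - v| < ε := by
              have h7 : m / Q - v = (m - Q * v) / Q := by field_simp
              rw [h7, abs_div, abs_of_pos hQR, div_lt_iff₀ hQR]
              linarith
            obtain ⟨h8, h9⟩ := abs_lt.mp h6
            rw [abs_le]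
            constructor
            · linarith
            · linarith
    refine (avg_mono key).trans ?_
    rw [avg_add]
    have e1 : avg (fun ω : Om n t d × (Fin Q → Cube n) =>
        if vS (W S t f d 0 ω.1) f < vS (S i) f - ∑ a ∈ range d, e (a + 1)
          then (1 : ℝ) else 0) ≤ 1 / 6 := by
      rw [avg_prod]
      have h := W_good S t f he hp d 0 i (Nat.div_eq_of_lt hi)
      refine le_trans (le_of_eq ?_) (h.trans hps)
      congr 1
      funext ω
      exact avg_const (α := Fin Q → Cube n)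
        (if vS (W S t f d 0 ω) f < vS (S i) f - ∑ a ∈ range d, e (a + 1) then (1 : ℝ) else 0)
    have e2 : avg (fun ω : Om n t d × (Fin Q → Cube n) =>
        if Q * ε ≤ |(∑ j, XS (W S t f d 0 ω.1) f (ω.2 j)) - Q * avg (XS (W S t f d 0 ω.1) f)|
          then (1 : ℝ) else 0) ≤ 1 / 6 := by
      rw [avg_prod]
      apply avg_le_of_forall
      intro ω
      exact (hoeffding (Q := Q) (X := XS (W S t f d 0 ω) f) (XS_nonneg _ f) (XS_le_one _ f)
        hε.le).trans h2
    linarith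

theorem sum_geom (x : ℝ) (d : ℕ) :
    ∑ a ∈ range d, x / 9 * (9 / 10 : ℝ) ^ (a + 1) = x * (1 - (9 / 10 : ℝ) ^ d) := by
  induction d with
  | zero => simp
  | succ d ih => rw [sum_range_succ, ih]; ring

theorem sum_geom2 (d : ℕ) :
    ∑ a ∈ range d, (1 / 6 : ℝ) * (1 / 2 : ℝ) ^ (a + 1) = 1 / 6 * (1 - (1 / 2 : ℝ) ^ d) := by
  induction d with
  | zero => simp
  | succ d ih => rw [sum_range_succ, ih]; ring

theorem exp_level {m : ℕ} {x : ℝ} (hx : (175 / 54 : ℝ) * (567 / 400 : ℝ) ^ m ≤ x) :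
    4 * Real.exp (-x) ≤ 1 / 6 * (1 / 2 : ℝ) ^ m := by
  have h1 : 1 + (m : ℝ) * (167 / 400) ≤ (1 + 167 / 400 : ℝ) ^ m :=
    one_add_mul_le_pow (by norm_num) m
  have h2 : (1 + 167 / 400 : ℝ) = 567 / 400 := by norm_num
  rw [h2] at h1
  have hm : (0 : ℝ) ≤ m := Nat.cast_nonneg m
  have h3 : (16 / 5 : ℝ) + m * (7 / 10) ≤ x := by nlinarith
  have h4 : (24 : ℝ) ≤ Real.exp (16 / 5) := by
    have h5 : (2.718 : ℝ) ≤ Real.exp 1 := by
      have := Real.exp_one_gt_d9; linarith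
    have h6 : (24 : ℝ) ^ 5 ≤ Real.exp (16 / 5) ^ 5 := by
      calc (24 : ℝ) ^ 5 ≤ 2.718 ^ 16 := by norm_num
        _ ≤ Real.exp 1 ^ 16 := pow_le_pow_left₀ (by norm_num) h5 16
        _ = Real.exp (16 / 5) ^ 5 := by
          rw [← Real.exp_nat_mul, ← Real.exp_nat_mul]
          norm_num
    exact le_of_pow_le_pow_left₀ (by norm_num) (Real.exp_pos _).le h6
  have h7 : (2 : ℝ) ^ m ≤ Real.exp (m * (7 / 10)) := by
    rw [Real.exp_nat_mul]
    apply pow_le_pow_left₀ (by norm_num)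
    have h8 := Real.log_two_lt_d9
    calc (2 : ℝ) = Real.exp (Real.log 2) := (Real.exp_log (by norm_num)).symm
      _ ≤ _ := Real.exp_le_exp.mpr (by linarith)
  have h9 : 24 * (2 : ℝ) ^ m ≤ Real.exp x := by
    calc 24 * (2 : ℝ) ^ m ≤ Real.exp (16 / 5) * Real.exp (m * (7 / 10)) := by gcongr
      _ = Real.exp (16 / 5 + m * (7 / 10)) := (Real.exp_add _ _).symm
      _ ≤ _ := Real.exp_le_exp.mpr h3
  have hp : (0 : ℝ) < 2 ^ m := by positivity
  rw [Real.exp_neg, one_div, one_div, inv_pow, ← mul_inv, ← div_eq_mul_inv,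
    div_le_iff₀ (Real.exp_pos _), ← div_eq_inv_mul, le_div_iff₀ (by positivity)]
  linarith

theorem num_le {t : ℕ → ℕ} {x : ℝ} (ht : ∀ l, (t l : ℝ) ≤ 2100 * (7 / 4 : ℝ) ^ l * x + 1)
    (c l : ℕ) : (num t c l : ℝ) ≤
      2 * 2 ^ c * 2 ^ l * (14700 * x * (1 - (7 / 8 : ℝ) ^ l) + (1 - (1 / 2 : ℝ) ^ l)) := by
  induction l with
  | zero => simp [num]
  | succ l ih =>
    simp only [num]
    push_cast
    have h1 := ht (l + 1)
    have h2 : (7 / 4 : ℝ) ^ l = 2 ^ l * (7 / 8 : ℝ) ^ l := by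
      rw [← mul_pow]; norm_num
    have h3 : (2 : ℝ) ^ l * (1 / 2 : ℝ) ^ l = 1 := by
      rw [← mul_pow]; norm_num
    rw [pow_succ, h2] at h1
    rw [pow_succ, pow_succ, pow_succ]
    generalize (2 : ℝ) ^ l = a at *
    generalize (7 / 8 : ℝ) ^ l = b at *
    generalize (1 / 2 : ℝ) ^ l = h at *
    have hc : (0 : ℝ) < 2 ^ c := by positivity
    have h4 := mul_le_mul_of_nonneg_right h1 hc.le
    have h5 : 2 * 2 ^ c * (a * 2) * (14700 * x * (1 - b * (7 / 8)) + (1 - h * (1 / 2))) =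
        2 * (2 * 2 ^ c * a * (14700 * x * (1 - b) + (1 - h))) +
        2 * ((2100 * (a * b * (7 / 4)) * x + 1) * 2 ^ c) + 2 * 2 ^ c * (a * h - 1) := by ring
    rw [h5, h3]
    linarith

/-- The upper bound for fixed codimension. -/
theorem upper (c k : ℕ) {ε : ℝ} (hε0 : 0 < ε) (hε : ε < 1 / 4) :
    (queryComplexity (k + c) k ε : ℝ) ≤ 2 * 10 ^ 5 * 2 ^ c * (k + c).choose c / ε ^ 2 := by
  classical
  set n := k + c with hn
  set K := n.choose c with hK
  have hK0 : 0 < K := Nat.choose_pos (by omega)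
  obtain ⟨S0, -, hS0⟩ := exists_subset_card_eq (s := (univ : Finset (Fin n))) (n := c)
    (by rw [card_univ, Fintype.card_fin]; omega)
  set L := (powersetCard c (univ : Finset (Fin n))).toList with hL
  have hLl : L.length = K := by
    rw [hL, length_toList, card_powersetCard, card_univ, Fintype.card_fin]
  have hLm : ∀ A : Finset (Fin n), A ∈ L ↔ A.card = c := by
    intro A
    rw [hL, mem_toList, mem_powersetCard]
    simp
  set S : ℕ → Finset (Fin n) := fun i => L.getD i S0 with hS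
  have hSc : ∀ j, (S j).card = c := by
    intro j
    by_cases hj : j < L.length
    · simp only [hS]
      rw [List.getD_eq_getElem _ _ hj]
      exact (hLm _).mp (List.getElem_mem hj)
    · simp only [hS]
      rw [List.getD_eq_default _ _ (by omega)]
      exact hS0
  set d := Nat.clog 2 K with hd
  have hd1 : K ≤ 2 ^ d := Nat.le_pow_clog (by norm_num) K
  have hd2 : 2 ^ d ≤ 2 * K := by
    by_cases h1 : 1 < K
    · have h2 : 2 ^ d.pred < K := Nat.pow_pred_clog_lt_self (b := 2) (by norm_num) h1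
      have h3 : 0 < d := Nat.clog_pos (by norm_num) h1
      have h4 : 2 ^ d = 2 * 2 ^ d.pred := by
        obtain ⟨m, hm⟩ : ∃ m, d = m + 1 := ⟨d - 1, by omega⟩
        rw [hm, Nat.pred_succ, pow_succ']
      rw [h4]
      omega
    · have h2 : K = 1 := by omega
      have h3 : d = 0 := by rw [hd, h2]; exact Nat.clog_one_right 2
      rw [h3]
      omega
  have hcov : ∀ A : Finset (Fin n), A.card = c → ∃ i, i < 2 ^ d ∧ S i = A := by
    intro A hA
    obtain ⟨i, hi, hi'⟩ := List.mem_iff_getElem.mp ((hLm A).mpr hA)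
    refine ⟨i, by omega, ?_⟩
    simp only [hS]
    rw [List.getD_eq_getElem _ _ hi, hi']
  set x : ℝ := 1 / ε ^ 2 with hx
  have hx0 : 0 < x := by positivity
  have hxε : x * ε ^ 2 = 1 := by rw [hx]; field_simp
  have hx16 : 16 ≤ x := by
    rw [hx, le_div_iff₀ (by positivity)]
    nlinarith
  set t : ℕ → ℕ := fun l => ⌈2100 * (7 / 4 : ℝ) ^ l * x⌉₊ with ht
  set Q := ⌈6 * x⌉₊ with hQ
  have hQ0 : 0 < Q := by rw [hQ, Nat.ceil_pos]; positivity
  have htle : ∀ l, (t l : ℝ) ≤ 2100 * (7 / 4 : ℝ) ^ l * x + 1 := fun l =>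
    (Nat.ceil_lt_add_one (by positivity)).le
  have htge : ∀ l, 2100 * (7 / 4 : ℝ) ^ l * x ≤ t l := fun l => Nat.le_ceil _
  have hQle : (Q : ℝ) ≤ 6 * x + 1 := (Nat.ceil_lt_add_one (by positivity)).le
  have hQge : 6 * x ≤ Q := Nat.le_ceil _
  obtain ⟨A, hA⟩ := approximates_algoT (n := n) (k := k) (c := c) hn hSc hcov hQ0 (t := t)
    (e := fun l => ε / 9 * (9 / 10 : ℝ) ^ l) (p := fun l => (1 / 6 : ℝ) * (1 / 2 : ℝ) ^ l)
    (ε := ε) (fun l => by positivity) (by
      intro l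
      generalize l + 1 = m
      apply exp_level
      have h1 := htge m
      have h2 : (567 / 400 : ℝ) ^ m = (7 / 4 : ℝ) ^ m * ((9 / 10 : ℝ) ^ m) ^ 2 := by
        rw [← pow_mul, mul_comm m 2, pow_mul, ← mul_pow]
        norm_num
      rw [h2]
      have h3 : (175 / 54 : ℝ) * ((7 / 4 : ℝ) ^ m * ((9 / 10 : ℝ) ^ m) ^ 2) =
          (2100 * (7 / 4 : ℝ) ^ m * x) * (ε / 9 * (9 / 10 : ℝ) ^ m / 2) ^ 2 / 2 := by
        have h4 : (2100 * (7 / 4 : ℝ) ^ m * x) * (ε / 9 * (9 / 10 : ℝ) ^ m / 2) ^ 2 / 2 =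
          (175 / 54 : ℝ) * ((7 / 4 : ℝ) ^ m * ((9 / 10 : ℝ) ^ m) ^ 2) * (x * ε ^ 2) := by ring
        rw [h4, hxε, mul_one]
      rw [h3]
      gcongr) hε0 (by
      rw [sum_geom]
      have h1 : (0 : ℝ) < (9 / 10 : ℝ) ^ d := by positivity
      nlinarith) (by
      rw [sum_geom2]
      have h1 : (0 : ℝ) < (1 / 2 : ℝ) ^ d := by positivity
      nlinarith) (by
      have h1 : 3 ≤ Q * ε ^ 2 / 2 := by
        have h2 : 6 * x * ε ^ 2 ≤ Q * ε ^ 2 := mul_le_mul_of_nonneg_right hQge (by positivity)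
        nlinarith
      have h3 : Real.exp (-(Q * ε ^ 2 / 2)) ≤ Real.exp (-3) :=
        Real.exp_le_exp.mpr (by linarith)
      have h6 : (12 : ℝ) ≤ Real.exp 3 := by
        have h7 : (2.7 : ℝ) ≤ Real.exp 1 := by
          have := Real.exp_one_gt_d9; linarith
        calc (12 : ℝ) ≤ 2.7 ^ 3 := by norm_num
          _ ≤ Real.exp 1 ^ 3 := pow_le_pow_left₀ (by norm_num) h7 3
          _ = Real.exp 3 := by rw [← Real.exp_nat_mul]; norm_num
      have h8 : Real.exp (-3) ≤ 1 / 12 := by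
        rw [Real.exp_neg, ← one_div]
        exact one_div_le_one_div_of_le (by norm_num) h6
      linarith)
  have h1 : (queryComplexity n k ε : ℝ) ≤ ((num t c d + Q * 2 ^ c : ℕ) : ℝ) := by
    exact_mod_cast queryComplexity_le hA
  refine h1.trans ?_
  push_cast
  have h2 := num_le htle c d
  have hc : (0 : ℝ) < 2 ^ c := by positivity
  have hKR : (1 : ℝ) ≤ K := by exact_mod_cast hK0
  have h3 : (2 : ℝ) ^ d ≤ 2 * K := by exact_mod_cast hd2
  have h4 : 14700 * x * (1 - (7 / 8 : ℝ) ^ d) + (1 - (1 / 2 : ℝ) ^ d) ≤ 14700 * x + 1 := by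
    have h5 : (0 : ℝ) < (7 / 8 : ℝ) ^ d := by positivity
    have h6 : (0 : ℝ) < (1 / 2 : ℝ) ^ d := by positivity
    nlinarith
  have h5 : 2 * 2 ^ c * 2 ^ d * (14700 * x * (1 - (7 / 8 : ℝ) ^ d) + (1 - (1 / 2 : ℝ) ^ d)) ≤
      2 * 2 ^ c * (2 * K) * (14700 * x + 1) := by
    calc _ ≤ 2 * 2 ^ c * 2 ^ d * (14700 * x + 1) :=
          mul_le_mul_of_nonneg_left h4 (by positivity)
      _ ≤ _ := by gcongr
  have h6 : (Q : ℝ) * 2 ^ c ≤ (6 * x + 1) * 2 ^ c * K := by
    calc (Q : ℝ) * 2 ^ c ≤ (6 * x + 1) * 2 ^ c := mul_le_mul_of_nonneg_right hQle hc.le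
      _ ≤ _ := le_mul_of_one_le_right (by positivity) hKR
  have h7 : 2 * 10 ^ 5 * 2 ^ c * (K : ℝ) / ε ^ 2 = 2 ^ c * K * (200000 * x) := by
    rw [hx]; ring
  rw [h7]
  have h8 : 2 * 2 ^ c * (2 * (K : ℝ)) * (14700 * x + 1) + (6 * x + 1) * 2 ^ c * K =
      2 ^ c * K * (58806 * x + 5) := by ring
  have h9 : 2 ^ c * (K : ℝ) * (58806 * x + 5) ≤ 2 ^ c * K * (200000 * x) :=
    mul_le_mul_of_nonneg_left (by linarith) (by positivity)
  linarith

end Pool.Agent.Work.MP_8f25a0_lc.Cod
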