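import Pool.Agent.Work.MP_8f25a0_lc.Reduce

/-!
# Fixed codimension: cells and the distance to juntas
-/

namespace Pool.Agent.Work.MP_8f25a0_lc.Cod

open Finset

variable {n k c : ℕ}

/-- the points which agree with `x` off `S` -/
def cellS (S : Finset (Fin n)) (x : Cube n) : Finset (Cube n) :=
  univ.filter fun w => ∀ i, i ∉ S → w i = x i

theorem mem_cellS {S : Finset (Fin n)} {x w : Cube n} :
    w ∈ cellS S x ↔ ∀ i, i ∉ S → w i = x i := by
  simp [cellS]

theorem self_mem_cellS (S : Finset (Fin n)) (x : Cube n) : x ∈ cellS S x :=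
  mem_cellS.mpr fun _ _ => rfl

theorem mem_cellS_symm {S : Finset (Fin n)} {x w : Cube n} : w ∈ cellS S x ↔ x ∈ cellS S w := by
  rw [mem_cellS, mem_cellS]
  exact ⟨fun h i hi => (h i hi).symm, fun h i hi => (h i hi).symm⟩

theorem cellS_congr {S : Finset (Fin n)} {x y : Cube n} (h : ∀ i, i ∉ S → x i = y i) :
    cellS S x = cellS S y := by
  ext w
  rw [mem_cellS, mem_cellS]
  exact ⟨fun h' i hi => (h' i hi).trans (h i hi), fun h' i hi => (h' i hi).trans (h i hi).symm⟩

theorem cellS_eq {S : Finset (Fin n)} {x w : Cube n} (h : w ∈ cellS S x) :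
    cellS S w = cellS S x := cellS_congr (mem_cellS.mp h)

/-- the point of the cell of `x` whose coordinates in `S` are the indicator of `A` -/
def pt (S : Finset (Fin n)) (x : Cube n) (A : Finset (Fin n)) : Cube n :=
  fun i => if i ∈ S then decide (i ∈ A) else x i

theorem pt_injOn (S : Finset (Fin n)) (x : Cube n) :
    Set.InjOn (pt S x) (S.powerset : Finset (Finset (Fin n))) := by
  intro A hA B hB h
  simp only [coe_powerset, Set.mem_preimage, Set.mem_powerset_iff, coe_subset] at hA hB
  ext i
  by_cases hi : i ∈ S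
  · have := congrFun h i
    simp only [pt, if_pos hi, decide_eq_decide] at this
    exact this
  · exact ⟨fun h' => absurd (hA h') hi, fun h' => absurd (hB h') hi⟩

theorem cellS_image (S : Finset (Fin n)) (x : Cube n) :
    cellS S x = S.powerset.image (pt S x) := by
  ext w
  rw [mem_cellS, mem_image]
  constructor
  · intro h
    refine ⟨S.filter fun i => w i = true, ?_, ?_⟩
    · exact mem_powerset.mpr (filter_subset _ _)
    · funext i
      unfold pt
      by_cases hi : i ∈ S
      · rw [if_pos hi]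
        cases hw : w i <;> simp [hi, hw]
      · rw [if_neg hi, h i hi]
  · rintro ⟨A, -, rfl⟩ i hi
    unfold pt
    rw [if_neg hi]

theorem card_cellS (S : Finset (Fin n)) (x : Cube n) : (cellS S x).card = 2 ^ S.card := by
  rw [cellS_image, card_image_of_injOn (pt_injOn S x), card_powerset]

theorem prod_cellS (S : Finset (Fin n)) (x : Cube n) (G : Cube n → ℝ) :
    ∏ w ∈ cellS S x, G w = ∏ A ∈ S.powerset, G (pt S x A) := by
  rw [cellS_image, prod_image (pt_injOn S x)]

/-- the absolute value of the mean of the signs on the cell of `x` -/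
noncomputable def XS (S : Finset (Fin n)) (f : Cube n → Bool) (x : Cube n) : ℝ :=
  |∑ w ∈ cellS S x, sg (f w)| / 2 ^ S.card

/-- the mean over all cells -/
noncomputable def vS (S : Finset (Fin n)) (f : Cube n → Bool) : ℝ := avg (XS S f)

theorem XS_nonneg (S : Finset (Fin n)) (f : Cube n → Bool) (x : Cube n) : 0 ≤ XS S f x := by
  unfold XS; positivity

theorem XS_le_one (S : Finset (Fin n)) (f : Cube n → Bool) (x : Cube n) : XS S f x ≤ 1 := by
  unfold XS
  rw [div_le_one (by positivity)]
  refine (abs_sum_le_sum_abs _ _).trans ?_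
  simp_rw [abs_sg]
  rw [sum_const, nsmul_eq_mul, mul_one, card_cellS]
  push_cast
  exact le_rfl

theorem XS_congr {S : Finset (Fin n)} {f g : Cube n → Bool} {x : Cube n}
    (h : ∀ w ∈ cellS S x, f w = g w) : XS S f x = XS S g x := by
  unfold XS
  congr 2
  exact sum_congr rfl fun w hw => by rw [h w hw]

theorem vS_nonneg (S : Finset (Fin n)) (f : Cube n → Bool) : 0 ≤ vS S f :=
  avg_nonneg (XS_nonneg S f)

theorem vS_le_one (S : Finset (Fin n)) (f : Cube n → Bool) : vS S f ≤ 1 :=
  avg_le_of_forall (XS_le_one S f)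

/-- averaging over the cells first -/
theorem avg_cell (S : Finset (Fin n)) (F : Cube n → ℝ) :
    avg F = avg fun x => (∑ w ∈ cellS S x, F w) / 2 ^ S.card := by
  unfold avg
  congr 1
  rw [← sum_div]
  have h : ∑ x : Cube n, ∑ w ∈ cellS S x, F w = ∑ w : Cube n, ∑ x ∈ cellS S w, F w := by
    apply sum_comm'
    intro x w
    constructor
    · rintro ⟨-, h⟩
      exact ⟨mem_cellS_symm.mp h, mem_univ _⟩
    · rintro ⟨h, -⟩
      exact ⟨mem_univ _, mem_cellS_symm.mp h⟩
  rw [h]
  simp_rw [sum_const, card_cellS, nsmul_eq_mul]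
  rw [← mul_sum]
  push_cast
  field_simp

theorem corr_le {S : Finset (Fin n)} (f : Cube n → Bool) {g : Cube n → Bool}
    (hg : ∀ x y : Cube n, (∀ i, i ∉ S → x i = y i) → g x = g y) :
    1 - 2 * dist f g ≤ vS S f := by
  rw [← corr_dist, avg_cell S]
  unfold vS
  apply avg_mono
  intro x
  unfold XS
  apply div_le_div_of_nonneg_right _ (by positivity)
  have h : ∑ w ∈ cellS S x, sg (f w) * sg (g w) = (∑ w ∈ cellS S x, sg (f w)) * sg (g x) := by
    rw [sum_mul]
    apply sum_congr rfl
    intro w hw
    rw [hg w x (mem_cellS.mp hw)]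
  rw [h]
  refine (le_abs_self _).trans ?_
  rw [abs_mul, abs_sg, mul_one]

/-- the majority on the cells -/
noncomputable def maj (S : Finset (Fin n)) (f : Cube n → Bool) (x : Cube n) : Bool := by
  classical
  exact decide (∑ w ∈ cellS S x, sg (f w) < 0)

theorem maj_congr {S : Finset (Fin n)} (f : Cube n → Bool) {x y : Cube n}
    (h : ∀ i, i ∉ S → x i = y i) : maj S f x = maj S f y := by
  unfold maj
  rw [cellS_congr h]

theorem mul_sg_maj (S : Finset (Fin n)) (f : Cube n → Bool) (x : Cube n) :
    (∑ w ∈ cellS S x, sg (f w)) * sg (maj S f x) = |∑ w ∈ cellS S x, sg (f w)| := by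
  unfold maj
  generalize ∑ w ∈ cellS S x, sg (f w) = z
  by_cases h : z < 0
  · rw [abs_of_neg h]
    simp [sg, h]
  · rw [abs_of_nonneg (not_lt.mp h)]
    simp [sg, h]

theorem corr_maj (S : Finset (Fin n)) (f : Cube n → Bool) :
    1 - 2 * dist f (maj S f) = vS S f := by
  rw [← corr_dist, avg_cell S]
  unfold vS
  congr 1
  funext x
  unfold XS
  congr 1
  rw [← mul_sg_maj, sum_mul]
  apply sum_congr rfl
  intro w hw
  rw [maj_congr f (mem_cellS.mp hw)]

/-- an upper bound for the distance -/
theorem distK_le_vS (hn : n = k + c) {S : Finset (Fin n)} (hS : S.card = c) (f : Cube n → Bool) :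
    distK k f ≤ (1 - vS S f) / 2 := by
  have h1 : IsJunta k (maj S f) := by
    refine ⟨Sᶜ, ?_, ?_⟩
    · rw [card_compl, Fintype.card_fin, hS, hn]
      omega
    · intro x y h
      exact maj_congr f fun i hi => h i (mem_compl.mpr hi)
  have h2 := distK_le (f := f) h1
  have h3 := corr_maj S f
  linarith

/-- the distance is attained by a cell structure -/
theorem exists_vS (hn : n = k + c) (f : Cube n → Bool) :
    ∃ S : Finset (Fin n), S.card = c ∧ (1 - vS S f) / 2 ≤ distK k f := by
  obtain ⟨g, ⟨J, hJ, hg⟩, hg'⟩ := exists_distK k f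
  have h1 : c ≤ Jᶜ.card := by
    rw [card_compl, Fintype.card_fin]
    omega
  obtain ⟨S, hS, hSc⟩ := exists_subset_card_eq h1
  refine ⟨S, hSc, ?_⟩
  have h2 := corr_le (S := S) f (g := g) (by
    intro x y h
    apply hg
    intro i hi
    apply h
    intro hiS
    exact (mem_compl.mp (hS hiS)) hi)
  rw [hg']
  linarith

end Pool.Agent.Work.MP_8f25a0_lc.Cod
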