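import Pool.Agent.Work.MP_8f25a0_lc.Fourier

/-!
# Fixed codimension: sums of random signs
-/

namespace Pool.Agent.Work.MP_8f25a0_lc.Cod

open Finset

/-- the mean of `G (s + sum of N signs)` -/
noncomputable def Af : ℕ → (ℝ → ℝ) → ℝ → ℝ
  | 0, G, s => G s
  | N + 1, G, s => (Af N G (s + 1) + Af N G (s - 1)) / 2

/-- the mean of `(product of N signs) * G (s + sum of N signs)` -/
noncomputable def Bf : ℕ → (ℝ → ℝ) → ℝ → ℝ
  | 0, G, s => G s
  | N + 1, G, s => (Bf N G (s + 1) - Bf N G (s - 1)) / 2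

theorem avg_bool (F : Bool → ℝ) : avg F = (F true + F false) / 2 := by
  unfold avg
  rw [Fintype.sum_bool, Fintype.card_bool]
  norm_num

theorem avg_Af {α : Type*} [Fintype α] [DecidableEq α] (K : Finset α) (G : ℝ → ℝ) :
    ∀ s : ℝ, avg (fun h : α → Bool => G (s + ∑ w ∈ K, sg (h w))) = Af K.card G s := by
  induction K using Finset.induction_on with
  | empty =>
    intro s
    simp only [sum_empty, add_zero, card_empty, Af]
    exact avg_const _
  | insert x K hx ih =>
    intro s
    rw [card_insert_of_notMem hx, Af, avg_update x]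
    have h1 : ∀ (p : α → Bool) (b : Bool),
        ∑ w ∈ insert x K, sg (Function.update p x b w) = sg b + ∑ w ∈ K, sg (p w) := by
      intro p b
      rw [sum_insert hx, Function.update_self]
      congr 1
      apply sum_congr rfl
      intro w hw
      rw [Function.update_of_ne]
      rintro rfl
      exact hx hw
    simp_rw [h1, avg_bool]
    rw [← ih (s + 1), ← ih (s - 1), ← avg_add, div_eq_mul_inv, ← avg_mul_right]
    congr 1
    funext p
    simp only [sg, if_true, Bool.false_eq_true, if_false]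
    rw [show s + (-1 + ∑ w ∈ K, if p w = true then (-1 : ℝ) else 1) =
      s - 1 + ∑ w ∈ K, if p w = true then (-1 : ℝ) else 1 by ring,
      show s + (1 + ∑ w ∈ K, if p w = true then (-1 : ℝ) else 1) =
      s + 1 + ∑ w ∈ K, if p w = true then (-1 : ℝ) else 1 by ring]
    ring

theorem avg_Bf {α : Type*} [Fintype α] [DecidableEq α] (K : Finset α) (G : ℝ → ℝ) :
    ∀ s : ℝ, avg (fun h : α → Bool => (∏ w ∈ K, sg (h w)) * G (s + ∑ w ∈ K, sg (h w))) =
      Bf K.card G s := by
  induction K using Finset.induction_on with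
  | empty =>
    intro s
    simp only [sum_empty, add_zero, card_empty, Bf, prod_empty, one_mul]
    exact avg_const _
  | insert x K hx ih =>
    intro s
    rw [card_insert_of_notMem hx, Bf, avg_update x]
    have h1 : ∀ (p : α → Bool) (b : Bool),
        ∑ w ∈ insert x K, sg (Function.update p x b w) = sg b + ∑ w ∈ K, sg (p w) := by
      intro p b
      rw [sum_insert hx, Function.update_self]
      congr 1
      apply sum_congr rfl
      intro w hw
      rw [Function.update_of_ne]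
      rintro rfl
      exact hx hw
    have h2 : ∀ (p : α → Bool) (b : Bool),
        ∏ w ∈ insert x K, sg (Function.update p x b w) = sg b * ∏ w ∈ K, sg (p w) := by
      intro p b
      rw [prod_insert hx, Function.update_self]
      congr 1
      apply prod_congr rfl
      intro w hw
      rw [Function.update_of_ne]
      rintro rfl
      exact hx hw
    simp_rw [h1, h2, avg_bool]
    rw [← ih (s + 1), ← ih (s - 1), ← avg_sub, div_eq_mul_inv, ← avg_mul_right]
    congr 1
    funext p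
    have e1 : sg true = -1 := by simp [sg]
    have e2 : sg false = 1 := by simp [sg]
    rw [e1, e2, show s + (-1 + ∑ w ∈ K, sg (p w)) = s - 1 + ∑ w ∈ K, sg (p w) by ring,
      show s + (1 + ∑ w ∈ K, sg (p w)) = s + 1 + ∑ w ∈ K, sg (p w) by ring]
    ring

theorem Bf_succ' (N : ℕ) (G : ℝ → ℝ) :
    ∀ s, Bf (N + 1) G s = Bf N (fun t => (G (t + 1) - G (t - 1)) / 2) s := by
  induction N with
  | zero => intro s; simp [Bf]
  | succ N ih =>
    intro s
    rw [Bf, ih, ih, Bf]

/-- the second difference of the absolute value -/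
noncomputable def G2 (t : ℝ) : ℝ := (|t + 2| - 2 * |t| + |t - 2|) / 4

theorem Bf_add_two (N : ℕ) (s : ℝ) : Bf (N + 2) (fun t => |t|) s = Bf N G2 s := by
  rw [Bf_succ', Bf_succ']
  congr 1
  funext t
  unfold G2
  rw [show t + 1 + 1 = t + 2 by ring, show t + 1 - 1 = t by ring, show t - 1 + 1 = t by ring,
    show t - 1 - 1 = t - 2 by ring]
  ring

theorem Bf_G2 (p : ℕ) : (∀ i : ℕ, Bf p G2 (2 * i - p) = (-1) ^ i * (p.choose i) / 2 ^ p) ∧
    ∀ i : ℕ, Bf p G2 (-2 * (i + 1) - p) = 0 := by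
  induction p with
  | zero =>
    constructor
    · intro i
      simp only [Bf, Nat.cast_zero, sub_zero, pow_zero, div_one]
      rcases i with _ | i
      · simp [G2]
        norm_num
      · rw [Nat.choose_zero_succ]
        unfold G2
        have h : (0 : ℝ) ≤ i := Nat.cast_nonneg i
        push_cast
        rw [abs_of_nonneg (by linarith), abs_of_nonneg (by linarith), abs_of_nonneg (by linarith)]
        ring
    · intro i
      simp only [Bf, Nat.cast_zero, sub_zero]
      unfold G2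
      have h : (0 : ℝ) ≤ i := Nat.cast_nonneg i
      rw [abs_of_nonpos (by linarith), abs_of_nonpos (by linarith), abs_of_nonpos (by linarith)]
      ring
  | succ p ih =>
    constructor
    · intro i
      rw [Bf]
      rcases i with _ | i
      · have h1 := ih.1 0
        have h2 := ih.2 0
        rw [show (2 * ((0 : ℕ) : ℝ) - ((p + 1 : ℕ) : ℝ) + 1) = 2 * ((0 : ℕ) : ℝ) - p by
          push_cast; ring, h1,
          show (2 * ((0 : ℕ) : ℝ) - ((p + 1 : ℕ) : ℝ) - 1) = -2 * (((0 : ℕ) : ℝ) + 1) - p by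
          push_cast; ring, h2]
        simp
        rw [pow_succ]
        field_simp
      · have h1 := ih.1 (i + 1)
        have h2 := ih.1 i
        rw [show (2 * ((i + 1 : ℕ) : ℝ) - ((p + 1 : ℕ) : ℝ) + 1) = 2 * ((i + 1 : ℕ) : ℝ) - p by
          push_cast; ring, h1,
          show (2 * ((i + 1 : ℕ) : ℝ) - ((p + 1 : ℕ) : ℝ) - 1) = 2 * (i : ℝ) - p by
          push_cast; ring, h2, Nat.choose_succ_succ]
        push_cast
        rw [pow_succ 2 p]
        field_simp
        ring
    · intro i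
      rw [Bf]
      have h1 := ih.2 i
      have h2 := ih.2 (i + 1)
      rw [show (-2 * ((i : ℝ) + 1) - ((p + 1 : ℕ) : ℝ) + 1) = -2 * ((i : ℝ) + 1) - p by
          push_cast; ring, h1,
        show (-2 * ((i : ℝ) + 1) - ((p + 1 : ℕ) : ℝ) - 1) = -2 * (((i + 1 : ℕ) : ℝ) + 1) - p by
          push_cast; ring, h2]
      ring

theorem Bf_abs (h : ℕ) :
    Bf (2 * (h + 1)) (fun t => |t|) 0 = (-1) ^ h * (Nat.centralBinom h) / 4 ^ h := by
  rw [show 2 * (h + 1) = 2 * h + 2 by ring, Bf_add_two]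
  have h1 := (Bf_G2 (2 * h)).1 h
  rw [show (2 * (h : ℝ) - ((2 * h : ℕ) : ℝ)) = 0 by push_cast; ring] at h1
  rw [h1, Nat.centralBinom_eq_two_mul_choose, pow_mul]
  norm_num

theorem centralBinom_sq (m : ℕ) (hm : 1 ≤ m) : 16 ^ m ≤ 4 * m * Nat.centralBinom m ^ 2 := by
  induction m, hm using Nat.le_induction with
  | base => simp [Nat.centralBinom]
  | succ m hm ih =>
    have h1 := Nat.succ_mul_centralBinom_succ m
    have h2 : (m + 1) * 16 ^ (m + 1) ≤ (m + 1) * (4 * (m + 1) * Nat.centralBinom (m + 1) ^ 2) := by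
      calc (m + 1) * 16 ^ (m + 1) = 16 * (m + 1) * 16 ^ m := by ring
        _ ≤ 16 * (m + 1) * (4 * m * Nat.centralBinom m ^ 2) := Nat.mul_le_mul_left _ ih
        _ = (64 * m * (m + 1)) * Nat.centralBinom m ^ 2 := by ring
        _ ≤ (16 * (2 * m + 1) ^ 2) * Nat.centralBinom m ^ 2 := by
            apply Nat.mul_le_mul_right
            nlinarith
        _ = 4 * (2 * (2 * m + 1) * Nat.centralBinom m) ^ 2 := by ring
        _ = 4 * ((m + 1) * Nat.centralBinom (m + 1)) ^ 2 := by rw [h1]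
        _ = _ := by ring
    exact Nat.le_of_mul_le_mul_left h2 (by omega)

/-- the mean of the absolute value of the mean of `2 ^ c` signs -/
noncomputable def aa (c : ℕ) : ℝ := Af (2 ^ c) (fun t => |t|) 0 / 2 ^ c

/-- the correlation of the absolute value of the mean of `2 ^ c` signs with their product -/
noncomputable def tau (c : ℕ) : ℝ := Bf (2 ^ c) (fun t => |t|) 0 / 2 ^ c

theorem tau_sq (c : ℕ) (hc : 1 ≤ c) : 1 ≤ 2 * 8 ^ c * tau c ^ 2 := by
  obtain ⟨d, rfl⟩ := Nat.exists_eq_add_of_le hc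
  have hN : 2 ^ (1 + d) = 2 * ((2 ^ d - 1) + 1) := by
    have : 1 ≤ 2 ^ d := Nat.one_le_two_pow
    rw [pow_add, pow_one]
    omega
  unfold tau
  rw [hN, Bf_abs]
  set m := 2 ^ d - 1 with hm
  have hm' : (2 : ℝ) ^ d = m + 1 := by
    have : 2 ^ d = m + 1 := by
      have : 1 ≤ 2 ^ d := Nat.one_le_two_pow
      omega
    exact_mod_cast this
  have h8 : (8 : ℝ) ^ (1 + d) = 8 * ((m : ℝ) + 1) ^ 3 := by
    rw [pow_add, pow_one, ← hm', ← pow_mul, mul_comm d 3, pow_mul]
    norm_num
  have h2 : (2 : ℝ) ^ (1 + d) = 2 * ((m : ℝ) + 1) := by rw [pow_add, pow_one, hm']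
  rw [h8, h2]
  have hm0 : (0 : ℝ) ≤ m := Nat.cast_nonneg m
  have e1 : ((-1 : ℝ) ^ m * (Nat.centralBinom m) / 4 ^ m / (2 * ((m : ℝ) + 1))) ^ 2 =
      (Nat.centralBinom m : ℝ) ^ 2 / (16 ^ m * (4 * ((m : ℝ) + 1) ^ 2)) := by
    rw [div_pow, div_pow, mul_pow, ← pow_mul, mul_comm m 2, pow_mul, ← pow_mul 4 m 2,
      mul_comm m 2, pow_mul 4 2 m]
    norm_num
    rw [div_div]
    congr 1
    ring
  rw [e1]
  rw [show 2 * (8 * ((m : ℝ) + 1) ^ 3) * ((Nat.centralBinom m : ℝ) ^ 2 /
      (16 ^ m * (4 * ((m : ℝ) + 1) ^ 2))) =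
      (4 * ((m : ℝ) + 1) * (Nat.centralBinom m : ℝ) ^ 2) / 16 ^ m by
    field_simp
    ring]
  rw [one_le_div (by positivity)]
  rcases Nat.eq_zero_or_pos m with h | h
  · rw [h]
    norm_num [Nat.centralBinom]
  · have h3 := centralBinom_sq m h
    have h4 : (16 : ℝ) ^ m ≤ 4 * m * (Nat.centralBinom m : ℝ) ^ 2 := by exact_mod_cast h3
    have h5 : 0 ≤ (Nat.centralBinom m : ℝ) ^ 2 := by positivity
    nlinarith

end Pool.Agent.Work.MP_8f25a0_lc.Cod
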