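import Pool.Agent.Work.MP_8f25a0_lc.Fourier
import Pool.Agent.Work.MP_8f25a0_lc.Cod.Signs

/-!
# Fixed codimension: independence and the level one inequality
-/

namespace Pool.Agent.Work.MP_8f25a0_lc.Cod

open Finset

theorem avg_prod_fun {ι β : Type*} [Fintype ι] [DecidableEq ι] [Fintype β] [Nonempty β]
    (F : ι → β → ℝ) (K : Finset ι) :
    avg (fun φ : ι → β => ∏ i ∈ K, F i (φ i)) = ∏ i ∈ K, avg (F i) := by
  induction K using Finset.induction_on with
  | empty =>
    simp only [prod_empty]
    exact avg_const _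
  | insert x K hx ih =>
    rw [prod_insert hx, avg_update x, ← ih]
    have h1 : ∀ (p : ι → β) (b : β),
        ∏ w ∈ insert x K, F w (Function.update p x b w) = F x b * ∏ w ∈ K, F w (p w) := by
      intro p b
      rw [prod_insert hx, Function.update_self]
      congr 1
      apply prod_congr rfl
      intro w hw
      rw [Function.update_of_ne]
      rintro rfl
      exact hx hw
    simp_rw [h1, avg_mul_right]
    rw [avg_mul_left]

/-- **The level one inequality.** -/
theorem level_one {ι : Type*} [Fintype ι] [DecidableEq ι] (C : Finset (ι → Bool))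
    (hC : C.Nonempty) (K : Finset ι) :
    ∑ i ∈ K, ((∑ φ ∈ C, sg (φ i)) / C.card) ^ 2 ≤
      2 * Real.log ((Fintype.card (ι → Bool) : ℝ) / C.card) := by
  set b : ι → ℝ := fun i => (∑ φ ∈ C, sg (φ i)) / C.card with hb
  set Z : (ι → Bool) → ℝ := fun φ => ∑ i ∈ K, b i * sg (φ i) with hZ
  set B : ℝ := ∑ i ∈ K, b i ^ 2 with hB
  have hc : (0 : ℝ) < C.card := by exact_mod_cast hC.card_pos
  have hΦ : (0 : ℝ) < Fintype.card (ι → Bool) := by exact_mod_cast Fintype.card_pos
  have h1 : ∑ φ ∈ C, Z φ = C.card * B := by
    simp only [hZ]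
    rw [sum_comm, hB, mul_sum]
    apply sum_congr rfl
    intro i _
    rw [← mul_sum]
    simp only [hb]
    field_simp
  have h2 : C.card * Real.exp B ≤ ∑ φ ∈ C, Real.exp (Z φ) := by
    calc C.card * Real.exp B = ∑ φ ∈ C, Real.exp B * (1 + (Z φ - B)) := by
          rw [← mul_sum, sum_add_distrib, sum_sub_distrib, h1, sum_const, sum_const]
          simp only [nsmul_eq_mul, mul_one]
          ring
      _ ≤ ∑ φ ∈ C, Real.exp (Z φ) := by
          apply sum_le_sum
          intro φ _
          have h3 : Real.exp (Z φ) = Real.exp B * Real.exp (Z φ - B) := by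
            rw [← Real.exp_add]; congr 1; ring
          rw [h3]
          apply mul_le_mul_of_nonneg_left _ (Real.exp_pos _).le
          have := Real.add_one_le_exp (Z φ - B)
          linarith
  have h3 : ∑ φ ∈ C, Real.exp (Z φ) ≤ Fintype.card (ι → Bool) * Real.exp (B / 2) := by
    calc ∑ φ ∈ C, Real.exp (Z φ) ≤ ∑ φ, Real.exp (Z φ) :=
          sum_le_sum_of_subset_of_nonneg (subset_univ _) fun _ _ _ => (Real.exp_pos _).le
      _ = Fintype.card (ι → Bool) * avg (fun φ => Real.exp (Z φ)) := by
          unfold avg; field_simp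
      _ ≤ Fintype.card (ι → Bool) * Real.exp (B / 2) := by
          apply mul_le_mul_of_nonneg_left _ hΦ.le
          have h4 : ∀ φ : ι → Bool, Real.exp (Z φ) = ∏ i ∈ K, Real.exp (b i * sg (φ i)) := by
            intro φ; rw [← Real.exp_sum]
          simp_rw [h4]
          rw [avg_prod_fun (fun i β => Real.exp (b i * sg β))]
          have h5 : Real.exp (B / 2) = ∏ i ∈ K, Real.exp (b i ^ 2 / 2) := by
            rw [← Real.exp_sum, hB, sum_div]
          rw [h5]
          apply prod_le_prod
          · intro i _
            exact avg_nonneg fun _ => (Real.exp_pos _).le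
          · intro i _
            rw [avg_bool]
            have e1 : sg true = -1 := by simp [sg]
            have e2 : sg false = 1 := by simp [sg]
            rw [e1, e2]
            have h6 := Real.cosh_le_exp_half_sq (b i)
            rw [Real.cosh_eq] at h6
            rw [mul_one, mul_neg, mul_one]
            linarith
  have h4 : Real.exp (B / 2) ≤ Fintype.card (ι → Bool) / C.card := by
    rw [le_div_iff₀ hc]
    have h5 : Real.exp B = Real.exp (B / 2) * Real.exp (B / 2) := by
      rw [← Real.exp_add]; congr 1; ring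
    have h6 := h2.trans h3
    rw [h5] at h6
    have h7 := Real.exp_pos (B / 2)
    have h8 : (C.card * Real.exp (B / 2)) * Real.exp (B / 2) ≤
        Fintype.card (ι → Bool) * Real.exp (B / 2) := by linarith
    have := le_of_mul_le_mul_right h8 h7
    linarith
  have h5 : B / 2 ≤ Real.log (Fintype.card (ι → Bool) / C.card) := by
    rw [Real.le_log_iff_exp_le (by positivity)]
    exact h4
  linarith

/-- the entropy inequality for a split in two parts -/
theorem entropy_split {M N₀ N₁ : ℝ} (hM : 0 < M) (h0 : 0 ≤ N₀) (h1 : 0 ≤ N₁) :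
    N₀ * Real.log (M / N₀) + N₁ * Real.log (M / N₁) ≤
      (N₀ + N₁) * (Real.log (M / (N₀ + N₁)) + Real.log 2) := by
  rcases (add_nonneg h0 h1).eq_or_lt with hN | hN
  · have h2 : N₀ = 0 := by linarith
    have h3 : N₁ = 0 := by linarith
    rw [h2, h3]; simp
  · have key : ∀ x : ℝ, 0 ≤ x → x * Real.log (M / x) ≤
        x * Real.log (M / (N₀ + N₁)) + x * Real.log 2 + ((N₀ + N₁) / 2 - x) := by
      intro x hx
      rcases hx.eq_or_lt with h | h
      · rw [← h]
        simp only [zero_mul, zero_add, sub_zero]
        linarith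
      · have e1 : Real.log (M / x) = Real.log (M / (N₀ + N₁)) + Real.log 2 +
            Real.log ((N₀ + N₁) / (2 * x)) := by
          rw [← Real.log_mul (by positivity) (by norm_num),
            ← Real.log_mul (by positivity) (by positivity)]
          congr 1
          field_simp
        have e2 := Real.log_le_sub_one_of_pos (show 0 < (N₀ + N₁) / (2 * x) by positivity)
        have e3 : x * Real.log ((N₀ + N₁) / (2 * x)) ≤ x * ((N₀ + N₁) / (2 * x) - 1) :=
          mul_le_mul_of_nonneg_left e2 hx
        have e4 : x * ((N₀ + N₁) / (2 * x) - 1) = (N₀ + N₁) / 2 - x := by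
          field_simp
        rw [e1]
        nlinarith
    have k0 := key N₀ h0
    have k1 := key N₁ h1
    nlinarith

theorem log_lower2 {x : ℝ} (hx : |x| ≤ 1 / 2) : x - 2 * x ^ 2 ≤ Real.log (1 + x) := by
  rw [abs_le] at hx
  have h0 : 0 < 1 + x := by linarith
  have h1 := Real.log_le_sub_one_of_pos (show 0 < (1 + x)⁻¹ by positivity)
  rw [Real.log_inv] at h1
  have h2 : 1 - (1 + x)⁻¹ = x / (1 + x) := by field_simp; ring
  have h3 : x - 2 * x ^ 2 ≤ x / (1 + x) := by
    rw [le_div_iff₀ h0]
    nlinarith [sq_nonneg x, mul_nonneg (sq_nonneg x) (show 0 ≤ 1 + 2 * x by linarith)]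
  linarith

end Pool.Agent.Work.MP_8f25a0_lc.Cod
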