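import Pool.Agent.Work.MP_8f25a0_lc.Cod.Moments

/-!
# Fixed codimension: the lower bound
-/

namespace Pool.Agent.Work.MP_8f25a0_lc.Cod

open Finset

variable {r m c k q : ℕ} {ε : ℝ}

theorem avg_weighted {Ω α : Type*} [Fintype Ω] [Fintype α] [DecidableEq α] (F : Ω → α)
    (w : Ω → ℝ) (G : α → ℝ) :
    ∑ a, (avg fun φ => if F φ = a then w φ else 0) * G a = avg fun φ => w φ * G (F φ) := by
  simp_rw [← avg_mul_right]
  rw [← avg_sum]
  congr 1
  funext φ
  rw [sum_eq_single (F φ)]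
  · simp
  · intro a _ ha
    rw [if_neg (Ne.symm ha), zero_mul]
  · intro h
    exact absurd (mem_univ _) h

/-- the tree inequality in the random polynomial model -/
theorem tree_avg {δ : ℝ} (hδ : |δ| ≤ 1 / 2) (O : Set ℝ) (T : Tree (r + m)) (hT : T.depth ≤ q) :
    2 * Real.log 2 * ((univ : Finset (Fin m)).powersetCard c).card *
        avg (fun φ : Cube r → Finset (Fin m) → Bool => oi T O (FF c φ)) -
      3 / 2 * ∑ S ∈ (univ : Finset (Fin m)).powersetCard c,
        avg (fun φ : Cube r → Finset (Fin m) → Bool => LR δ S φ * oi T O (FF c φ)) ≤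
    ((univ : Finset (Fin m)).powersetCard c).card * (Real.log 2 - 1 / 2) +
      4 * δ ^ 2 * (q * Real.log 2) := by
  set K := (univ : Finset (Fin m)).powersetCard c with hK
  have h := tree_ineq (yof (r := r) (m := m)) (fun x ψ => PV c ψ (supp x)) hδ K O T
    (fun _ => univ)
  rw [Fintype.piFinset_univ] at h
  have hM : (0 : ℝ) < Fintype.card (Cube r → Finset (Fin m) → Bool) := by
    exact_mod_cast Fintype.card_pos
  rw [card_univ, div_self hM.ne', Real.log_one, zero_add] at h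
  -- the linear term vanishes
  have hlin : ∀ S ∈ K, ∑ φ : Cube r → Finset (Fin m) → Bool, δ * ∑ y, sg (φ y S) = 0 := by
    intro S _
    have h1 : ∀ y : Cube r, ∑ φ : Cube r → Finset (Fin m) → Bool, sg (φ y S) = 0 := by
      intro y
      have h2 := avg_prod_fun (fun (_ : Cube r) (ψ : Finset (Fin m) → Bool) => sg (ψ S)) {y}
      have h3 := avg_prod_fun (fun (_ : Finset (Fin m)) (b : Bool) => sg b) {S}
      simp only [prod_singleton] at h2 h3
      rw [h3, avg_bool] at h2
      simp only [sg, if_true, Bool.false_eq_true, if_false] at h2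
      unfold avg at h2
      rw [div_eq_iff hM.ne'] at h2
      simp only [sg]
      rw [h2]
      norm_num
    rw [← mul_sum, sum_comm, sum_eq_zero fun y _ => h1 y, mul_zero]
  rw [sum_eq_zero hlin] at h
  -- the right side
  have hright : ∑ S ∈ K, ∑ φ : Cube r → Finset (Fin m) → Bool,
      (LR δ S φ * (1 / 2 + 3 / 2 * oi T O (fun_of yof (fun x ψ => PV c ψ (supp x)) φ)) - 1 +
        Real.log 2 * (1 - 2 * oi T O (fun_of yof (fun x ψ => PV c ψ (supp x)) φ))) =
      Fintype.card (Cube r → Finset (Fin m) → Bool) *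
        (3 / 2 * ∑ S ∈ K, avg (fun φ : Cube r → Finset (Fin m) → Bool =>
          LR δ S φ * oi T O (FF c φ)) + K.card * (Real.log 2 - 1 / 2) -
        2 * Real.log 2 * K.card *
          avg (fun φ : Cube r → Finset (Fin m) → Bool => oi T O (FF c φ))) := by
    have h1 : ∀ S ∈ K, ∑ φ : Cube r → Finset (Fin m) → Bool,
        (LR δ S φ * (1 / 2 + 3 / 2 * oi T O (fun_of yof (fun x ψ => PV c ψ (supp x)) φ)) - 1 +
          Real.log 2 * (1 - 2 * oi T O (fun_of yof (fun x ψ => PV c ψ (supp x)) φ))) =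
        Fintype.card (Cube r → Finset (Fin m) → Bool) *
          (3 / 2 * avg (fun φ : Cube r → Finset (Fin m) → Bool => LR δ S φ * oi T O (FF c φ)) +
            (Real.log 2 - 1 / 2) - 2 * Real.log 2 *
            avg (fun φ : Cube r → Finset (Fin m) → Bool => oi T O (FF c φ))) := by
      intro S _
      have h2 : avg (fun φ : Cube r → Finset (Fin m) → Bool => LR δ S φ) = 1 :=
        avg_wt2 (om δ S) (avg_om δ S)
      have h3 : ∀ φ : Cube r → Finset (Fin m) → Bool,
          (LR δ S φ * (1 / 2 + 3 / 2 * oi T O (fun_of yof (fun x ψ => PV c ψ (supp x)) φ)) - 1 +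
          Real.log 2 * (1 - 2 * oi T O (fun_of yof (fun x ψ => PV c ψ (supp x)) φ))) =
          (1 / 2 * LR δ S φ + 3 / 2 * (LR δ S φ * oi T O (FF c φ))) +
            ((Real.log 2 - 1) + -(2 * Real.log 2) * oi T O (FF c φ)) := by
        intro φ
        unfold FF
        ring
      simp_rw [h3]
      have h4 : ∀ G : (Cube r → Finset (Fin m) → Bool) → ℝ, ∑ φ, G φ =
          Fintype.card (Cube r → Finset (Fin m) → Bool) * avg G := by
        intro G; unfold avg; field_simp
      rw [h4, avg_add, avg_add, avg_add, avg_mul_left, avg_mul_left, avg_mul_left, avg_const, h2]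
      ring
    rw [sum_congr rfl h1, ← mul_sum, sum_sub_distrib, sum_add_distrib, ← mul_sum, sum_const,
      sum_const, nsmul_eq_mul, nsmul_eq_mul]
    ring
  rw [hright] at h
  have hl2 : 0 ≤ Real.log 2 := Real.log_nonneg (by norm_num)
  have hT' : (T.depth : ℝ) ≤ q := by exact_mod_cast hT
  have h5 : (Fintype.card (Cube r → Finset (Fin m) → Bool) : ℝ) *
      (-(4 * δ ^ 2 * (T.depth * Real.log 2))) ≤
      Fintype.card (Cube r → Finset (Fin m) → Bool) *
        (3 / 2 * ∑ S ∈ K, avg (fun φ : Cube r → Finset (Fin m) → Bool =>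
          LR δ S φ * oi T O (FF c φ)) + K.card * (Real.log 2 - 1 / 2) -
        2 * Real.log 2 * K.card *
          avg (fun φ : Cube r → Finset (Fin m) → Bool => oi T O (FF c φ))) := by
    refine le_trans (le_of_eq ?_) h
    ring
  have h6 := le_of_mul_le_mul_left h5 hM
  have h7 : 4 * δ ^ 2 * (T.depth * Real.log 2) ≤ 4 * δ ^ 2 * (q * Real.log 2) :=
    mul_le_mul_of_nonneg_left (mul_le_mul_of_nonneg_right hT' hl2) (by positivity)
  linarith

/-- a correct algorithm in the null model -/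
theorem null_accept (hk : r + m = k + c) {A : PMF (Tree (r + m))}
    (hA : Approximates (r + m) k ε q A) (hε : 0 < ε)
    (hr : 50 * 2 ^ c * ((r + m).choose c : ℝ) ≤ 2 ^ r * ε ^ 2) :
    2 / 3 - 1 / 50 ≤ avg (fun φ : Cube r → Finset (Fin m) → Bool =>
      accO A (Set.Ici ((1 - aa c) / 2 - 3 / 2 * ε)) (FF c φ)) := by
  set K := (univ : Finset (Fin (r + m))).powersetCard c with hK
  have h1 : ∀ φ : Cube r → Finset (Fin m) → Bool,
      2 / 3 - ∑ S ∈ K, (if ε ≤ |vS S (FF c φ) - aa c| then (1 : ℝ) else 0) ≤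
      accO A (Set.Ici ((1 - aa c) / 2 - 3 / 2 * ε)) (FF c φ) := by
    intro φ
    have hn : ∀ S ∈ K, (0 : ℝ) ≤ if ε ≤ |vS S (FF c φ) - aa c| then (1 : ℝ) else 0 := by
      intro S _; split_ifs <;> norm_num
    by_cases hb : ∃ S ∈ K, ε ≤ |vS S (FF c φ) - aa c|
    · obtain ⟨S, hS, hb⟩ := hb
      have h2 := single_le_sum hn hS
      rw [if_pos hb] at h2
      have h3 := accO_nonneg A (Set.Ici ((1 - aa c) / 2 - 3 / 2 * ε)) (FF c φ)
      linarith
    · push Not at hb
      have h2 := sum_nonneg hn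
      have h3 : 2 / 3 ≤ accO A (Set.Ici ((1 - aa c) / 2 - 3 / 2 * ε)) (FF c φ) := by
        refine (two_thirds (hA.2 (FF c φ))).trans (prob_mono A ?_)
        intro T hT
        simp only [Set.mem_ofPred_eq] at hT ⊢
        obtain ⟨S, hS, hd⟩ := exists_vS hk (FF c φ)
        have h4 := hb S (mem_powersetCard.mpr ⟨subset_univ _, hS⟩)
        rw [abs_lt] at h4
        rw [abs_le] at hT
        rw [Set.mem_Ici]
        linarith
      linarith
  refine le_trans ?_ (avg_mono h1)
  rw [avg_sub, avg_const, avg_sum]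
  have h2 : ∀ S ∈ K, avg (fun φ : Cube r → Finset (Fin m) → Bool =>
      if ε ≤ |vS S (FF c φ) - aa c| then (1 : ℝ) else 0) ≤ 2 ^ c / 2 ^ r / ε ^ 2 := by
    intro S hS
    have h3 := null_moment (r := r) (m := m) (mem_powersetCard.mp hS).2
    have h4 := chebyshev (w := fun _ : Cube r → Finset (Fin m) → Bool => (1 : ℝ))
      (fun _ => by norm_num) (V := fun φ => vS S (FF c φ)) (μ := aa c) hε
      (ρ := 2 ^ c / 2 ^ r) (by simpa using h3)
    simpa using h4
  have h3 := sum_le_sum h2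
  rw [sum_const, nsmul_eq_mul, hK, card_powersetCard, card_univ, Fintype.card_fin] at h3
  have h4 : ((r + m).choose c : ℝ) * (2 ^ c / 2 ^ r / ε ^ 2) ≤ 1 / 50 := by
    rw [div_div, ← mul_div_assoc, div_le_div_iff₀ (by positivity) (by norm_num)]
    linarith
  rw [hK]
  linarith

/-- a correct algorithm in the planted model -/
theorem planted_accept (hk : r + m = k + c) {A : PMF (Tree (r + m))}
    (hA : Approximates (r + m) k ε q A) (hε : 0 < ε)
    (hr : 50 * 2 ^ c * ((r + m).choose c : ℝ) ≤ 2 ^ r * ε ^ 2) {δ : ℝ} (hδ : |δ| ≤ 1 / 2)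
    (hδτ : δ * tau c = 8 * ε) {S : Finset (Fin m)} (hS : S.card = c) :
    avg (fun φ : Cube r → Finset (Fin m) → Bool =>
      LR δ S φ * accO A (Set.Ici ((1 - aa c) / 2 - 3 / 2 * ε)) (FF c φ)) ≤ 1 / 3 + 1 / 50 := by
  have hS' : (S.image (Fin.natAdd r)).card = c := by
    rw [card_image_of_injective _ (Fin.natAdd_injective m r), hS]
  have hLR := LR_nonneg (Y := Cube r) (ι := Finset (Fin m)) hδ S
  have h1 : ∀ φ : Cube r → Finset (Fin m) → Bool,
      accO A (Set.Ici ((1 - aa c) / 2 - 3 / 2 * ε)) (FF c φ) ≤ 1 / 3 +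
      (if ε ≤ |vS (S.image (Fin.natAdd r)) (FF c φ) - (aa c + δ * tau c)| then (1 : ℝ) else 0) := by
    intro φ
    by_cases hb : ε ≤ |vS (S.image (Fin.natAdd r)) (FF c φ) - (aa c + δ * tau c)|
    · rw [if_pos hb]
      have := accO_le_one A (Set.Ici ((1 - aa c) / 2 - 3 / 2 * ε)) (FF c φ)
      linarith
    · rw [if_neg hb]
      push Not at hb
      have h2 := distK_le_vS hk hS' (FF c φ)
      have h3 := two_thirds (hA.2 (FF c φ))
      have h4 : Disjoint {T : Tree (r + m) | T.eval (FF c φ) ∈ Set.Ici ((1 - aa c) / 2 - 3 / 2 * ε)}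
          {T : Tree (r + m) | |T.eval (FF c φ) - distK k (FF c φ)| ≤ ε} := by
        rw [Set.disjoint_left]
        intro T h5 h6
        simp only [Set.mem_ofPred_eq] at h5 h6
        rw [Set.mem_Ici] at h5
        rw [abs_le] at h6
        rw [abs_lt, hδτ] at hb
        linarith
      have h5 := prob_disjoint A h4
      unfold accO
      linarith
  have h2 : avg (fun φ : Cube r → Finset (Fin m) → Bool =>
      LR δ S φ * accO A (Set.Ici ((1 - aa c) / 2 - 3 / 2 * ε)) (FF c φ)) ≤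
      avg (fun φ : Cube r → Finset (Fin m) → Bool => LR δ S φ * (1 / 3) + LR δ S φ *
      (if ε ≤ |vS (S.image (Fin.natAdd r)) (FF c φ) - (aa c + δ * tau c)|
        then (1 : ℝ) else 0)) := by
    apply avg_mono
    intro φ
    rw [← mul_add]
    exact mul_le_mul_of_nonneg_left (h1 φ) (hLR φ)
  refine h2.trans ?_
  rw [avg_add, avg_mul_right]
  have h3 : avg (fun φ : Cube r → Finset (Fin m) → Bool => LR δ S φ) = 1 :=
    avg_wt2 (om δ S) (avg_om δ S)
  have h4 := chebyshev (w := fun φ : Cube r → Finset (Fin m) → Bool => LR δ S φ) hLR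
    (V := fun φ => vS (S.image (Fin.natAdd r)) (FF c φ)) (μ := aa c + δ * tau c) hε
    (planted_moment (r := r) hS hδ)
  have h5 : (1 : ℝ) ≤ ((r + m).choose c : ℝ) := by
    have h6 : 0 < (r + m).choose c := Nat.choose_pos (by omega)
    exact_mod_cast h6
  have h6 : (2 : ℝ) ^ c / 2 ^ r / ε ^ 2 ≤ 1 / 50 := by
    rw [div_div, div_le_div_iff₀ (by positivity) (by norm_num)]
    have h7 : (50 : ℝ) * 2 ^ c * 1 ≤ 50 * 2 ^ c * ((r + m).choose c : ℝ) :=
      mul_le_mul_of_nonneg_left h5 (by positivity)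
    linarith
  rw [h3]
  linarith

/-- **The lower bound, with parameters.** -/
theorem lower_core (hc : 1 ≤ c) (hk : r + m = k + c) {A : PMF (Tree (r + m))}
    (hA : Approximates (r + m) k ε q A) (hε : 0 < ε) (h8 : 512 * 8 ^ c * ε ^ 2 ≤ 1)
    (hr : 50 * 2 ^ c * ((r + m).choose c : ℝ) ≤ 2 ^ r * ε ^ 2) :
    (m.choose c : ℝ) ≤ 2060 * 8 ^ c * ε ^ 2 * q := by
  have hτ2 := tau_sq c hc
  have h8c : (0 : ℝ) < 8 ^ c := by positivity
  have hτε : 256 * ε ^ 2 ≤ tau c ^ 2 := by
    have h1 : 8 ^ c * (512 * ε ^ 2) ≤ 8 ^ c * (2 * tau c ^ 2) := by linarith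
    have := le_of_mul_le_mul_left h1 h8c
    linarith
  have hτ0 : tau c ≠ 0 := by
    intro h
    rw [h] at hτε
    nlinarith [sq_pos_of_pos hε]
  have hτp : 0 < tau c ^ 2 := by positivity
  set δ : ℝ := 8 * ε / tau c with hδdef
  have hδτ : δ * tau c = 8 * ε := by rw [hδdef]; field_simp
  have hδsq : δ ^ 2 = 64 * ε ^ 2 / tau c ^ 2 := by rw [hδdef, div_pow]; ring
  have hδ : |δ| ≤ 1 / 2 := by
    apply abs_le_of_sq_le_sq' _ (by norm_num) |> abs_le.mpr
    rw [hδsq, div_le_iff₀ hτp]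
    linarith
  set O : Set ℝ := Set.Ici ((1 - aa c) / 2 - 3 / 2 * ε) with hO
  set K := (univ : Finset (Fin m)).powersetCard c with hK
  have hKc : (K.card : ℝ) = m.choose c := by
    rw [hK, card_powersetCard, card_univ, Fintype.card_fin]
  have b0 := null_accept hk hA hε hr
  have b1 : ∑ S ∈ K, avg (fun φ : Cube r → Finset (Fin m) → Bool =>
      LR δ S φ * accO A O (FF c φ)) ≤ K.card * (1 / 3 + 1 / 50) := by
    rw [← nsmul_eq_mul, ← sum_const]
    apply sum_le_sum
    intro S hS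
    exact planted_accept hk hA hε hr hδ hδτ (mem_powersetCard.mp hS).2
  set w : (Cube r → Finset (Fin m) → Bool) → ℝ := fun φ =>
    2 * Real.log 2 * K.card - 3 / 2 * ∑ S ∈ K, LR δ S φ with hw
  have hwG : ∀ G : (Cube (r + m) → Bool) → ℝ, avg (fun φ => w φ * G (FF c φ)) =
      2 * Real.log 2 * K.card * avg (fun φ : Cube r → Finset (Fin m) → Bool => G (FF c φ)) -
      3 / 2 * ∑ S ∈ K, avg (fun φ : Cube r → Finset (Fin m) → Bool => LR δ S φ * G (FF c φ)) := by
    intro G
    have h1 : ∀ φ : Cube r → Finset (Fin m) → Bool, w φ * G (FF c φ) =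
        2 * Real.log 2 * K.card * G (FF c φ) - 3 / 2 * ∑ S ∈ K, LR δ S φ * G (FF c φ) := by
      intro φ
      rw [hw, ← sum_mul]
      ring
    simp_rw [h1]
    rw [avg_sub, avg_mul_left, avg_mul_left, avg_sum]
  have b2 := sum_accO A O (fun a => avg fun φ : Cube r → Finset (Fin m) → Bool =>
    if FF c φ = a then w φ else 0) (q := q)
    (D := K.card * (Real.log 2 - 1 / 2) + 4 * δ ^ 2 * (q * Real.log 2)) hA.1 (by
      intro T hT
      rw [avg_weighted (FF c) w (fun a => oi T O a), hwG]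
      exact tree_avg hδ O T hT)
  rw [avg_weighted (FF c) w (fun a => accO A O a), hwG] at b2
  have hl := Real.log_two_gt_d9
  have hl' := Real.log_two_lt_d9
  have hK0 : (0 : ℝ) ≤ K.card := Nat.cast_nonneg _
  have b3 : 2 * Real.log 2 * K.card * (2 / 3 - 1 / 50) ≤ 2 * Real.log 2 * K.card *
      avg (fun φ : Cube r → Finset (Fin m) → Bool => accO A O (FF c φ)) :=
    mul_le_mul_of_nonneg_left b0 (by positivity)
  have b4 : (K.card : ℝ) * (22 / 75 * Real.log 2 - 3 / 100) ≤ 4 * δ ^ 2 * (q * Real.log 2) := by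
    nlinarith
  have b5 : (K.card : ℝ) * (173 / 1000) ≤ 4 * δ ^ 2 * (q * (6932 / 10000)) := by
    have h1 : (K.card : ℝ) * (173 / 1000) ≤ K.card * (22 / 75 * Real.log 2 - 3 / 100) :=
      mul_le_mul_of_nonneg_left (by linarith) hK0
    have h2 : 4 * δ ^ 2 * (q * Real.log 2) ≤ 4 * δ ^ 2 * (q * (6932 / 10000)) :=
      mul_le_mul_of_nonneg_left (mul_le_mul_of_nonneg_left (by linarith) (Nat.cast_nonneg _))
        (by positivity)
    linarith
  rw [hδsq] at b5
  have b6 : (K.card : ℝ) * (173 / 1000) * tau c ^ 2 ≤ 4 * (64 * ε ^ 2) * (q * (6932 / 10000)) := by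
    calc (K.card : ℝ) * (173 / 1000) * tau c ^ 2 ≤
          4 * (64 * ε ^ 2 / tau c ^ 2) * (q * (6932 / 10000)) * tau c ^ 2 :=
          mul_le_mul_of_nonneg_right b5 hτp.le
      _ = 4 * (64 * ε ^ 2) * (q * (6932 / 10000)) := by field_simp
  rw [hKc] at b6
  have hm0 : (0 : ℝ) ≤ m.choose c := Nat.cast_nonneg _
  have hq0 : (0 : ℝ) ≤ q := Nat.cast_nonneg _
  have b7 : (m.choose c : ℝ) * 1 ≤ m.choose c * (2 * 8 ^ c * tau c ^ 2) :=
    mul_le_mul_of_nonneg_left hτ2 hm0
  have b8 : (m.choose c : ℝ) * (2 * 8 ^ c * tau c ^ 2) * (173 / 1000) ≤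
      2 * 8 ^ c * (4 * (64 * ε ^ 2) * (q * (6932 / 10000))) := by
    have := mul_le_mul_of_nonneg_left b6 (show (0 : ℝ) ≤ 2 * 8 ^ c by positivity)
    linarith
  have b9 : 0 ≤ 8 ^ c * ε ^ 2 * (q : ℝ) := by positivity
  have b10 := mul_le_mul_of_nonneg_right b7 (show (0 : ℝ) ≤ 173 / 1000 by norm_num)
  have b11 : (m.choose c : ℝ) * (173 / 1000) ≤
      (2060 * 8 ^ c * ε ^ 2 * q) * (173 / 1000) := by
    refine le_trans (by linarith) (b8.trans ?_)
    have : 2 * 8 ^ c * (4 * (64 * ε ^ 2) * (q * (6932 / 10000))) =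
      (512 * 6932 / 10000) * (8 ^ c * ε ^ 2 * (q : ℝ)) := by ring
    rw [this]
    have : 2060 * 8 ^ c * ε ^ 2 * q * (173 / 1000) =
      (2060 * 173 / 1000) * (8 ^ c * ε ^ 2 * (q : ℝ)) := by ring
    rw [this]
    exact mul_le_mul_of_nonneg_right (by norm_num) b9
  exact le_of_mul_le_mul_right b11 (by norm_num)

end Pool.Agent.Work.MP_8f25a0_lc.Cod
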