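import Pool.Agent.Work.MP_8f25a0_lc.Cod.Lower
import Pool.Agent.Work.MP_8f25a0_lc.Decoy.Main

/-!
# Fixed codimension: the lower bound, final form
-/

namespace Pool.Agent.Work.MP_8f25a0_lc.Cod

open Finset

/-- a power of two between `Y` and `2 * Y` -/
theorem exists_pow_two {Y : ℝ} (hY : 1 ≤ Y) : ∃ r : ℕ, Y ≤ 2 ^ r ∧ 2 ^ r < 2 * Y := by
  have hex : ∃ r : ℕ, Y ≤ 2 ^ r := by
    obtain ⟨r, hr⟩ := pow_unbounded_of_one_lt Y (show (1 : ℝ) < 2 by norm_num)
    exact ⟨r, hr.le⟩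
  classical
  refine ⟨Nat.find hex, Nat.find_spec hex, ?_⟩
  rcases Nat.eq_zero_or_pos (Nat.find hex) with h | h
  · rw [h]; linarith
  · have h1 : ¬ Y ≤ 2 ^ (Nat.find hex - 1) := Nat.find_min hex (by omega)
    push Not at h1
    have h2 : (2 : ℝ) ^ Nat.find hex = 2 * 2 ^ (Nat.find hex - 1) := by
      rw [← pow_succ']
      congr 1
      omega
    rw [h2]
    linarith

theorem choose_compare {c k m r s : ℕ} (hk : r + m = k + c) (hr : s * r ≤ (s - 1) * (k + 1))
    (hs : 1 ≤ s) : (k + c).choose c ≤ s ^ c * m.choose c := by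
  have h1 : (k + c).descFactorial c ≤ s ^ c * m.descFactorial c := by
    rw [Nat.descFactorial_eq_prod_range, Nat.descFactorial_eq_prod_range]
    have h2 : s ^ c = ∏ _i ∈ range c, s := by rw [prod_const, card_range]
    rw [h2, ← prod_mul_distrib]
    apply prod_le_prod' 
    intro i hi
    rw [mem_range] at hi
    obtain ⟨s', rfl⟩ := Nat.exists_eq_add_of_le hs
    simp only [Nat.add_sub_cancel_left] at hr
    obtain ⟨d, hd⟩ := Nat.exists_eq_add_of_le (show k + 1 ≤ k + c - i by omega)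
    have h3 : m - i + r = k + c - i ∨ m ≤ i := by omega
    rcases h3 with h3 | h3
    · nlinarith
    · exfalso
      -- then `r ≥ k + c - i ≥ k + 1`
      have h4 : k + 1 ≤ r := by omega
      nlinarith
  rw [Nat.descFactorial_eq_factorial_mul_choose, Nat.descFactorial_eq_factorial_mul_choose] at h1
  have h2 : c.factorial * (k + c).choose c ≤ c.factorial * (s ^ c * m.choose c) := by
    calc _ ≤ s ^ c * (c.factorial * m.choose c) := h1
      _ = _ := by ring
  exact Nat.le_of_mul_le_mul_left h2 (Nat.factorial_pos c)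

/-- **The lower bound for fixed codimension.** -/
theorem lower_final {c k n s : ℕ} {ε : ℝ} (hc : 1 ≤ c) (hs : 2 ≤ s) (hn : k + c ≤ n)
    (hε : 0 < ε) (h8 : 512 * 8 ^ c * ε ^ 2 ≤ 1)
    (hH : (100 * 2 ^ c * ((k + c).choose c : ℝ) / ε ^ 2) ^ s ≤ 2 ^ ((s - 1) * (k + 1))) :
    ((k + c).choose c : ℝ) / (2060 * (8 * s) ^ c * ε ^ 2) ≤ queryComplexity n k ε := by
  have hC1 : (1 : ℝ) ≤ ((k + c).choose c : ℝ) := by
    have h6 : 0 < (k + c).choose c := Nat.choose_pos (by omega)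
    exact_mod_cast h6
  have hε2 : 0 < ε ^ 2 := by positivity
  have h8c : (1 : ℝ) ≤ 8 ^ c := one_le_pow₀ (by norm_num)
  have hε1 : ε ^ 2 ≤ 1 := by nlinarith
  have h2c : (1 : ℝ) ≤ 2 ^ c := one_le_pow₀ (by norm_num)
  set Y : ℝ := 50 * 2 ^ c * ((k + c).choose c : ℝ) / ε ^ 2 with hY
  have hY1 : 1 ≤ Y := by
    rw [hY, le_div_iff₀ hε2]
    have := one_le_mul_of_one_le_of_one_le h2c hC1
    nlinarith
  obtain ⟨r, hr1, hr2⟩ := exists_pow_two hY1
  have hs0 : s ≠ 0 := by omega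
  have h1 : (2 : ℝ) ^ (r * s) < 2 ^ ((s - 1) * (k + 1)) := by
    calc (2 : ℝ) ^ (r * s) = (2 ^ r) ^ s := pow_mul 2 r s
      _ < (2 * Y) ^ s := pow_lt_pow_left₀ hr2 (by positivity) hs0
      _ = (100 * 2 ^ c * ((k + c).choose c : ℝ) / ε ^ 2) ^ s := by rw [hY]; congr 1; ring
      _ ≤ _ := hH
  have h2 : r * s < (s - 1) * (k + 1) := (pow_lt_pow_iff_right₀ (by norm_num)).mp h1
  have hrk : r ≤ k := by
    by_contra hcon
    push Not at hcon
    obtain ⟨s', rfl⟩ := Nat.exists_eq_add_of_le (show 1 ≤ s by omega)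
    simp only [Nat.add_sub_cancel_left] at h2
    nlinarith
  obtain ⟨m, hm⟩ := Nat.exists_eq_add_of_le (show r ≤ k + c by omega)
  obtain ⟨A, hA⟩ := exists_approximates (r + m) k hε.le
  have hr : 50 * 2 ^ c * ((r + m).choose c : ℝ) ≤ 2 ^ r * ε ^ 2 := by
    rw [← hm]
    rw [hY, div_le_iff₀ hε2] at hr1
    exact hr1
  have h3 := lower_core hc hm.symm hA hε h8 hr
  have h4 : ((k + c).choose c : ℝ) ≤ s ^ c * m.choose c := by
    exact_mod_cast choose_compare hm.symm (by rw [mul_comm]; exact h2.le) (show 1 ≤ s by omega)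
  have h5 : (queryComplexity (r + m) k ε : ℝ) ≤ queryComplexity n k ε := by
    exact_mod_cast Decoy.qc_mono hε.le (show r + m ≤ n by omega)
  rw [div_le_iff₀ (by positivity)]
  calc ((k + c).choose c : ℝ) ≤ s ^ c * m.choose c := h4
    _ ≤ s ^ c * (2060 * 8 ^ c * ε ^ 2 * queryComplexity (r + m) k ε) :=
        mul_le_mul_of_nonneg_left h3 (by positivity)
    _ ≤ s ^ c * (2060 * 8 ^ c * ε ^ 2 * queryComplexity n k ε) := by gcongr
    _ = queryComplexity n k ε * (2060 * (8 * s) ^ c * ε ^ 2) := by rw [mul_pow]; ring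

end Pool.Agent.Work.MP_8f25a0_lc.Cod
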