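import Pool.Agent.Work.MP_8f25a0_lc.Cod.Poly

/-!
# Fixed codimension: second moments
-/

namespace Pool.Agent.Work.MP_8f25a0_lc.Cod

open Finset

set_option linter.unusedSectionVars false

section indep

variable {Y β : Type*} [Fintype Y] [DecidableEq Y] [Fintype β] [Nonempty β]

/-- functions of disjoint sets of coordinates are independent -/
theorem avg_indep (U : Finset Y) {A B : (Y → β) → ℝ}
    (hA : ∀ φ φ', (∀ y ∈ U, φ y = φ' y) → A φ = A φ')
    (hB : ∀ φ φ', (∀ y, y ∉ U → φ y = φ' y) → B φ = B φ') :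
    avg (fun φ => A φ * B φ) = avg A * avg B := by
  have h1 : avg A * avg B = avg (fun q : (Y → β) × (Y → β) => A q.1 * B q.2) := by
    rw [avg_prod (fun q : (Y → β) × (Y → β) => A q.1 * B q.2), ← avg_mul_right]
    congr 1
    funext φ
    rw [← avg_mul_left]
  have hinv : ∀ q : (Y → β) × (Y → β),
      (fun q : (Y → β) × (Y → β) => ((fun y => if y ∈ U then q.1 y else q.2 y),
        (fun y => if y ∈ U then q.2 y else q.1 y)))
      ((fun q : (Y → β) × (Y → β) => ((fun y => if y ∈ U then q.1 y else q.2 y),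
        (fun y => if y ∈ U then q.2 y else q.1 y))) q) = q := by
    rintro ⟨φ, φ'⟩
    simp only [Prod.mk.injEq]
    constructor
    · funext y; by_cases hy : y ∈ U <;> simp [hy]
    · funext y; by_cases hy : y ∈ U <;> simp [hy]
  have h2 := avg_equiv
    { toFun := fun q : (Y → β) × (Y → β) => ((fun y => if y ∈ U then q.1 y else q.2 y),
        (fun y => if y ∈ U then q.2 y else q.1 y))
      invFun := fun q : (Y → β) × (Y → β) => ((fun y => if y ∈ U then q.1 y else q.2 y),
        (fun y => if y ∈ U then q.2 y else q.1 y))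
      left_inv := hinv
      right_inv := hinv }
    (fun q : (Y → β) × (Y → β) => A q.1 * B q.1)
  have h3 : avg (fun q : (Y → β) × (Y → β) => A q.1 * B q.1) = avg (fun φ => A φ * B φ) := by
    rw [avg_prod (fun q : (Y → β) × (Y → β) => A q.1 * B q.1)]
    congr 1
    funext φ
    exact avg_const (α := Y → β) (A φ * B φ)
  rw [h1, ← h3, ← h2]
  congr 1
  funext q
  simp only [Equiv.coe_fn_mk]
  congr 1
  · apply hA
    intro y hy
    simp [hy]
  · apply hB
    intro y hy
    simp [hy]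

variable (ω : β → ℝ)

/-- a product weight -/
noncomputable def wt2 (φ : Y → β) : ℝ := ∏ y, ω (φ y)

theorem avg_wt2 (hω : avg ω = 1) : avg (wt2 (Y := Y) ω) = 1 := by
  unfold wt2
  rw [avg_prod_fun (fun _ => ω)]
  simp [hω]

theorem avg_wt2_local (hω : avg ω = 1) (U : Finset Y) {A : (Y → β) → ℝ}
    (hA : ∀ φ φ', (∀ y ∈ U, φ y = φ' y) → A φ = A φ') :
    avg (fun φ => wt2 ω φ * A φ) = avg (fun φ => (∏ y ∈ U, ω (φ y)) * A φ) := by
  have h1 : ∀ φ : Y → β, wt2 ω φ * A φ =
      ((∏ y ∈ U, ω (φ y)) * A φ) * ∏ y ∈ Uᶜ, ω (φ y) := by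
    intro φ
    unfold wt2
    rw [← prod_mul_prod_compl U]
    ring
  simp_rw [h1]
  rw [avg_indep U (A := fun φ => (∏ y ∈ U, ω (φ y)) * A φ) (B := fun φ => ∏ y ∈ Uᶜ, ω (φ y)),
    avg_prod_fun (fun _ => ω), hω]
  · simp
  · intro φ φ' h
    rw [hA φ φ' h]
    congr 1
    exact prod_congr rfl fun y hy => by rw [h y hy]
  · intro φ φ' h
    exact prod_congr rfl fun y hy => by rw [h y (mem_compl.mp hy)]

theorem avg_wt2_indep (hω : avg ω = 1) (U : Finset Y) {A B : (Y → β) → ℝ}
    (hA : ∀ φ φ', (∀ y ∈ U, φ y = φ' y) → A φ = A φ')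
    (hB : ∀ φ φ', (∀ y, y ∉ U → φ y = φ' y) → B φ = B φ') :
    avg (fun φ => wt2 ω φ * (A φ * B φ)) =
      avg (fun φ => wt2 ω φ * A φ) * avg (fun φ => wt2 ω φ * B φ) := by
  rw [avg_wt2_local ω hω U hA, avg_wt2_local ω hω Uᶜ (A := B)
    (fun φ φ' h => hB φ φ' fun y hy => h y (mem_compl.mpr hy))]
  rw [← avg_indep U (A := fun φ => (∏ y ∈ U, ω (φ y)) * A φ)
    (B := fun φ => (∏ y ∈ Uᶜ, ω (φ y)) * B φ)]
  · congr 1
    funext φ
    unfold wt2
    rw [← prod_mul_prod_compl U]
    ring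
  · intro φ φ' h
    rw [hA φ φ' h]
    congr 1
    exact prod_congr rfl fun y hy => by rw [h y hy]
  · intro φ φ' h
    rw [hB φ φ' h]
    congr 1
    exact prod_congr rfl fun y hy => by rw [h y (mem_compl.mp hy)]

end indep

section second

variable {Ω : Type*} [Fintype Ω] [Nonempty Ω] {n : ℕ}

/-- the second moment method -/
theorem second_moment {w : Ω → ℝ} (hw : ∀ φ, 0 ≤ w φ) (hw1 : avg w = 1)
    {X : Cube n → Ω → ℝ} (hX0 : ∀ x φ, 0 ≤ X x φ) (hX1 : ∀ x φ, X x φ ≤ 1) {μ ρ : ℝ}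
    (hμ0 : 0 ≤ μ) (hμ1 : μ ≤ 1) (bad : Cube n → Cube n → Prop) [∀ x x', Decidable (bad x x')]
    (hbad : ∀ x, avg (fun x' => if bad x x' then (1 : ℝ) else 0) ≤ ρ)
    (hgood : ∀ x x', ¬ bad x x' → avg (fun φ => w φ * ((X x φ - μ) * (X x' φ - μ))) = 0) :
    avg (fun φ => w φ * (avg (fun x => X x φ) - μ) ^ 2) ≤ ρ := by
  have h1 : ∀ φ, w φ * (avg (fun x => X x φ) - μ) ^ 2 =
      avg (fun x : Cube n => avg fun x' : Cube n => w φ * ((X x φ - μ) * (X x' φ - μ))) := by
    intro φ
    have e1 : avg (fun x => X x φ) - μ = avg (fun x : Cube n => X x φ - μ) := by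
      rw [avg_sub, avg_const]
    rw [e1, sq, ← avg_mul_right, ← avg_mul_left]
    congr 1
    funext x
    rw [← avg_mul_left, ← avg_mul_left]
    try rfl
  simp_rw [h1]
  rw [avg_comm]
  apply avg_le_of_forall
  intro x
  rw [avg_comm]
  refine le_trans (avg_mono ?_) (hbad x)
  intro x'
  by_cases hb : bad x x'
  · rw [if_pos hb, ← hw1]
    apply avg_mono
    intro φ
    have h2 : (X x φ - μ) * (X x' φ - μ) ≤ 1 := by
      have a0 := hX0 x φ
      have a1 := hX1 x φ
      have b0 := hX0 x' φ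
      have b1 := hX1 x' φ
      have h3 : |X x φ - μ| ≤ 1 := abs_le.mpr ⟨by linarith, by linarith⟩
      have h4 : |X x' φ - μ| ≤ 1 := abs_le.mpr ⟨by linarith, by linarith⟩
      calc (X x φ - μ) * (X x' φ - μ) ≤ |(X x φ - μ) * (X x' φ - μ)| := le_abs_self _
        _ = |X x φ - μ| * |X x' φ - μ| := abs_mul _ _
        _ ≤ 1 * 1 := mul_le_mul h3 h4 (abs_nonneg _) (by norm_num)
        _ = 1 := by norm_num
    calc w φ * ((X x φ - μ) * (X x' φ - μ)) ≤ w φ * 1 := mul_le_mul_of_nonneg_left h2 (hw φ)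
      _ = w φ := mul_one _
  · rw [if_neg hb, hgood x x' hb]

/-- Chebyshev's inequality -/
theorem chebyshev {w : Ω → ℝ} (hw : ∀ φ, 0 ≤ w φ) {V : Ω → ℝ} {μ ρ s : ℝ} (hs : 0 < s)
    (h : avg (fun φ => w φ * (V φ - μ) ^ 2) ≤ ρ) :
    avg (fun φ => w φ * (if s ≤ |V φ - μ| then (1 : ℝ) else 0)) ≤ ρ / s ^ 2 := by
  rw [le_div_iff₀ (by positivity), ← avg_mul_right]
  refine le_trans (avg_mono ?_) h
  intro φ
  by_cases hb : s ≤ |V φ - μ|
  · rw [if_pos hb, mul_one]
    apply mul_le_mul_of_nonneg_left _ (hw φ)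
    rw [← sq_abs (V φ - μ)]
    exact pow_le_pow_left₀ hs.le hb 2
  · rw [if_neg hb]
    have := mul_nonneg (hw φ) (sq_nonneg (V φ - μ))
    linarith

end second

section model

variable {r m : ℕ}

/-- agreement of the first coordinates off `S` -/
def bad (S : Finset (Fin (r + m))) (x x' : Cube (r + m)) : Prop :=
  ∀ i ∈ (univ.image (Fin.castAdd m) \ S : Finset (Fin (r + m))), x' i = x i

instance (S : Finset (Fin (r + m))) (x x' : Cube (r + m)) : Decidable (bad S x x') := by
  unfold bad; infer_instance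

theorem avg_bad {c : ℕ} {S : Finset (Fin (r + m))} (hS : S.card = c) (x : Cube (r + m)) :
    avg (fun x' => if bad S x x' then (1 : ℝ) else 0) ≤ 2 ^ c / 2 ^ r := by
  set Q : Finset (Fin (r + m)) := univ.image (Fin.castAdd m) \ S with hQ
  have h1 : ∀ x' : Cube (r + m), (if bad S x x' then (1 : ℝ) else 0) =
      ∏ i ∈ Q, (fun (i : Fin (r + m)) (b : Bool) => if b = x i then (1 : ℝ) else 0) i (x' i) := by
    intro x'
    by_cases h : bad S x x'
    · rw [if_pos h]
      symm
      apply prod_eq_one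
      intro i hi
      simp only
      rw [if_pos (h i hi)]
    · rw [if_neg h]
      unfold bad at h
      push Not at h
      obtain ⟨i, hi, hne⟩ := h
      symm
      apply prod_eq_zero hi
      simp only
      rw [if_neg hne]
  have h0 := avg_prod_fun
    (fun (i : Fin (r + m)) (b : Bool) => if b = x i then (1 : ℝ) else 0) Q
  rw [show (fun x' => if bad S x x' then (1 : ℝ) else 0) = fun x' : Cube (r + m) =>
    ∏ i ∈ Q, (fun (i : Fin (r + m)) (b : Bool) => if b = x i then (1 : ℝ) else 0) i (x' i) from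
    funext h1, h0]
  have h2 : ∀ i : Fin (r + m), avg (fun b : Bool => if b = x i then (1 : ℝ) else 0) = 1 / 2 := by
    intro i
    rw [avg_bool]
    cases x i <;> simp
  simp_rw [h2]
  rw [prod_const]
  have h3 : r ≤ Q.card + c := by
    have h4 : (univ.image (Fin.castAdd m) : Finset (Fin (r + m))).card = r := by
      rw [card_image_of_injective _ (Fin.castAdd_injective r m)]
      simp
    have h5 := le_card_sdiff S (univ.image (Fin.castAdd m) : Finset (Fin (r + m)))
    rw [h4, hS, ← hQ] at h5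
    omega
  rw [le_div_iff₀ (by positivity), one_div, inv_pow, inv_mul_le_iff₀ (by positivity)]
  rw [← pow_add]
  exact pow_le_pow_right₀ (by norm_num) h3

/-- the second moment of `vS` for a product weight -/
theorem moment_vS {c : ℕ} {S : Finset (Fin (r + m))} (hS : S.card = c)
    {ω : (Finset (Fin m) → Bool) → ℝ} (hω0 : ∀ ψ, 0 ≤ ω ψ) (hω : avg ω = 1) {μ : ℝ}
    (hμ : ∀ x : Cube (r + m), avg (fun φ : Cube r → Finset (Fin m) → Bool =>
      wt2 ω φ * XS S (FF c φ) x) = μ) :
    avg (fun φ : Cube r → Finset (Fin m) → Bool => wt2 ω φ * (vS S (FF c φ) - μ) ^ 2) ≤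
      2 ^ c / 2 ^ r := by
  have hw0 : ∀ φ : Cube r → Finset (Fin m) → Bool, 0 ≤ wt2 ω φ := fun φ =>
    prod_nonneg fun y _ => hω0 _
  have hw1 : avg (wt2 (Y := Cube r) ω) = 1 := avg_wt2 ω hω
  have hμ0 : 0 ≤ μ := by
    rw [← hμ (fun _ => false)]
    exact avg_nonneg fun φ => mul_nonneg (hw0 φ) (XS_nonneg _ _ _)
  have hμ1 : μ ≤ 1 := by
    rw [← hμ (fun _ => false), ← hw1]
    apply avg_mono
    intro φ
    exact mul_le_of_le_one_right (hw0 φ) (XS_le_one _ _ _)
  apply second_moment hw0 hw1 (X := fun x φ => XS S (FF c φ) x) (fun x φ => XS_nonneg _ _ _)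
    (fun x φ => XS_le_one _ _ _) hμ0 hμ1 (bad S) (avg_bad hS)
  intro x x' hgood
  -- the block of `x`
  set U : Finset (Cube r) := univ.filter fun y =>
    ∀ i : Fin r, Fin.castAdd m i ∉ S → y i = x (Fin.castAdd m i) with hU
  have hA : ∀ φ φ' : Cube r → Finset (Fin m) → Bool, (∀ y ∈ U, φ y = φ' y) →
      XS S (FF c φ) x - μ = XS S (FF c φ') x - μ := by
    intro φ φ' h
    rw [XS_congr]
    intro w hw
    rw [FF_apply, FF_apply, h]
    rw [hU, mem_filter]
    refine ⟨mem_univ _, fun i hi => ?_⟩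
    exact mem_cellS.mp hw _ hi
  have hB : ∀ φ φ' : Cube r → Finset (Fin m) → Bool, (∀ y, y ∉ U → φ y = φ' y) →
      XS S (FF c φ) x' - μ = XS S (FF c φ') x' - μ := by
    intro φ φ' h
    rw [XS_congr]
    intro w hw
    rw [FF_apply, FF_apply, h]
    intro hwU
    rw [hU, mem_filter] at hwU
    apply hgood
    intro i hi
    rw [mem_sdiff, mem_image] at hi
    obtain ⟨⟨i', -, rfl⟩, hi2⟩ := hi
    rw [← hwU.2 i' hi2]
    exact (mem_cellS.mp hw _ hi2).symm
  rw [avg_wt2_indep ω hω U (A := fun φ => XS S (FF c φ) x - μ)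
    (B := fun φ => XS S (FF c φ) x' - μ) hA hB]
  have h1 : avg (fun φ : Cube r → Finset (Fin m) → Bool => wt2 ω φ * (XS S (FF c φ) x - μ)) = 0 := by
    simp_rw [mul_sub]
    rw [avg_sub, avg_mul_right, hw1, hμ x]
    ring
  rw [h1, zero_mul]

/-- the weight of the planted model -/
noncomputable def om (δ : ℝ) (S : Finset (Fin m)) (ψ : Finset (Fin m) → Bool) : ℝ :=
  1 + δ * sg (ψ S)

theorem om_nonneg {δ : ℝ} (hδ : |δ| ≤ 1 / 2) (S : Finset (Fin m)) (ψ : Finset (Fin m) → Bool) :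
    0 ≤ om δ S ψ := by
  have h := abs_le.mp hδ
  unfold om sg
  split_ifs <;> linarith

theorem avg_om (δ : ℝ) (S : Finset (Fin m)) : avg (om δ S) = 1 := by
  have h := avg_prod_fun (fun (_ : Finset (Fin m)) (b : Bool) => 1 + δ * sg b)
    ({S} : Finset (Finset (Fin m)))
  simp only [prod_singleton] at h
  unfold om
  rw [h, avg_bool]
  simp only [sg, if_true, Bool.false_eq_true, if_false]
  ring

theorem wt2_om (δ : ℝ) (S : Finset (Fin m)) (φ : Cube r → Finset (Fin m) → Bool) :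
    wt2 (om δ S) φ = LR δ S φ := rfl

/-- the null model -/
theorem null_moment {c : ℕ} {S : Finset (Fin (r + m))} (hS : S.card = c) :
    avg (fun φ : Cube r → Finset (Fin m) → Bool => (vS S (FF c φ) - aa c) ^ 2) ≤
      2 ^ c / 2 ^ r := by
  have h := moment_vS (r := r) hS (ω := fun _ => 1) (fun _ => by norm_num) (avg_const _)
    (μ := aa c) (fun x => by
      have h0 : ∀ φ : Cube r → Finset (Fin m) → Bool,
          wt2 (fun _ => (1 : ℝ)) φ * XS S (FF c φ) x = XS S (FF c φ) x := by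
        intro φ; unfold wt2; simp
      simp_rw [h0]
      exact avg_XS hS x)
  have h0 : ∀ φ : Cube r → Finset (Fin m) → Bool, wt2 (fun _ => (1 : ℝ)) φ = 1 := by
    intro φ; unfold wt2; simp
  simp_rw [h0, one_mul] at h
  exact h

/-- the planted model -/
theorem planted_moment {c : ℕ} {S : Finset (Fin m)} (hS : S.card = c) {δ : ℝ}
    (hδ : |δ| ≤ 1 / 2) :
    avg (fun φ : Cube r → Finset (Fin m) → Bool => LR δ S φ *
      (vS (S.image (Fin.natAdd r)) (FF c φ) - (aa c + δ * tau c)) ^ 2) ≤ 2 ^ c / 2 ^ r := by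
  have hS' : (S.image (Fin.natAdd r)).card = c := by
    rw [card_image_of_injective _ (Fin.natAdd_injective m r), hS]
  have h := moment_vS (r := r) hS' (ω := om δ S) (om_nonneg hδ S) (avg_om δ S)
    (μ := aa c + δ * tau c) (fun x => by
      rw [avg_wt2_local (om δ S) (avg_om δ S) {yof x}
        (A := fun φ => XS (S.image (Fin.natAdd r)) (FF c φ) x)]
      · simp only [prod_singleton]
        have h0 : ∀ φ : Cube r → Finset (Fin m) → Bool,
            om δ S (φ (yof x)) * XS (S.image (Fin.natAdd r)) (FF c φ) x =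
            XS (S.image (Fin.natAdd r)) (FF c φ) x +
              δ * (sg (φ (yof x) S) * XS (S.image (Fin.natAdd r)) (FF c φ) x) := by
          intro φ; unfold om; ring
        simp_rw [h0]
        rw [avg_add, avg_mul_left, avg_XS hS' x, avg_sg_XS hS x]
      · intro φ φ' h
        rw [XS_congr]
        intro w hw
        rw [FF_apply, FF_apply, h]
        rw [mem_singleton]
        rw [cellS_last, mem_image] at hw
        obtain ⟨A, -, rfl⟩ := hw
        exact yof_pnt _ _)
  exact h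

end model

end Pool.Agent.Work.MP_8f25a0_lc.Cod
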