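import Pool.Agent.Work.MP_8f25a0_lc.SpikeTree
import Pool.Agent.Work.MP_8f25a0_lc.Cod.Level

/-!
# Fixed codimension: trees do not see a planted coordinate

The function is determined by independent blocks `φ y : ι → Bool`; the value at `x` depends on
the block `yq x` only.
-/

namespace Pool.Agent.Work.MP_8f25a0_lc.Cod

open Finset

set_option linter.unusedSectionVars false

section

variable {n : ℕ} {Y ι : Type*} [Fintype Y] [DecidableEq Y] [Fintype ι] [DecidableEq ι]
  (yq : Cube n → Y) (ev : Cube n → (ι → Bool) → Bool)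

/-- the function with the parameters `φ` -/
def fun_of (φ : Y → ι → Bool) : Cube n → Bool := fun x => ev x (φ (yq x))

/-- the likelihood ratio of the planted coordinate `S` -/
noncomputable def LR (δ : ℝ) (S : ι) (φ : Y → ι → Bool) : ℝ := ∏ y, (1 + δ * sg (φ y S))

theorem LR_nonneg {δ : ℝ} (hδ : |δ| ≤ 1 / 2) (S : ι) (φ : Y → ι → Bool) : 0 ≤ LR δ S φ := by
  unfold LR
  apply prod_nonneg
  intro y _
  have h := abs_le.mp hδ
  unfold sg
  split_ifs <;> linarith

theorem sum_pi_one (C : Y → Finset (ι → Bool)) (y : Y) (g : (ι → Bool) → ℝ) :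
    (∑ φ ∈ Fintype.piFinset C, g (φ y)) * (C y).card =
      (Fintype.piFinset C).card * ∑ ψ ∈ C y, g ψ := by
  have h1 : ∑ φ ∈ Fintype.piFinset C, g (φ y) =
      ∏ x, ∑ ψ ∈ C x, (if x = y then g ψ else 1) := by
    rw [Finset.prod_univ_sum]
    apply sum_congr rfl
    intro φ _
    rw [prod_ite_eq' univ y (fun x => g (φ x))]
    simp
  have h2 : ∏ x, ∑ ψ ∈ C x, (if x = y then g ψ else 1) =
      (∑ ψ ∈ C y, g ψ) * ∏ x ∈ univ.erase y, ((C x).card : ℝ) := by
    rw [← mul_prod_erase univ _ (mem_univ y)]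
    simp only [if_true]
    congr 1
    apply prod_congr rfl
    intro x hx
    rw [mem_erase] at hx
    simp [hx.1]
  have h3 : ((Fintype.piFinset C).card : ℝ) =
      (C y).card * ∏ x ∈ univ.erase y, ((C x).card : ℝ) := by
    rw [Fintype.card_piFinset]
    push_cast
    rw [← mul_prod_erase univ _ (mem_univ y)]
  rw [h1, h2, h3]
  ring

/-- the leaf inequality for one coordinate -/
theorem leaf_one {L o : ℝ} (hL : 0 < L) (ho : o = 0 ∨ o = 1) :
    Real.log L ≤ L * (1 / 2 + 3 / 2 * o) - 1 + Real.log 2 * (1 - 2 * o) := by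
  rcases ho with rfl | rfl
  · have h := Real.log_le_sub_one_of_pos (show 0 < L / 2 by positivity)
    rw [Real.log_div hL.ne' (by norm_num)] at h
    linarith
  · have h := Real.log_le_sub_one_of_pos (show 0 < 2 * L by positivity)
    rw [Real.log_mul (by norm_num) hL.ne'] at h
    linarith

theorem leaf_ineq {δ : ℝ} (hδ : |δ| ≤ 1 / 2) (C : Y → Finset (ι → Bool)) (K : Finset ι) {o : ℝ}
    (ho : o = 0 ∨ o = 1) :
    (∑ S ∈ K, ∑ φ ∈ Fintype.piFinset C, δ * ∑ y, sg (φ y S)) -
      4 * δ ^ 2 * ((Fintype.piFinset C).card *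
        Real.log ((Fintype.card (Y → ι → Bool) : ℝ) / (Fintype.piFinset C).card)) ≤
    ∑ S ∈ K, ∑ φ ∈ Fintype.piFinset C,
      (LR δ S φ * (1 / 2 + 3 / 2 * o) - 1 + Real.log 2 * (1 - 2 * o)) := by
  rcases (Fintype.piFinset C).eq_empty_or_nonempty with he | hne
  · rw [he]; simp
  · set N : ℝ := ((Fintype.piFinset C).card : ℝ) with hN
    have hN0 : 0 < N := by rw [hN]; exact_mod_cast hne.card_pos
    have hCy : ∀ y, (C y).Nonempty := by
      obtain ⟨φ, hφ⟩ := hne
      intro y
      exact ⟨φ y, Fintype.mem_piFinset.mp hφ y⟩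
    have hc : ∀ y, (0 : ℝ) < (C y).card := fun y => by exact_mod_cast (hCy y).card_pos
    have hNp : N = ∏ y, ((C y).card : ℝ) := by
      rw [hN, Fintype.card_piFinset]; push_cast; rfl
    set b : Y → ι → ℝ := fun y S => (∑ ψ ∈ C y, sg (ψ S)) / (C y).card with hb
    have hb1 : ∀ y S, |b y S| ≤ 1 := by
      intro y S
      simp only [hb]
      rw [abs_div, abs_of_pos (hc y), div_le_one (hc y)]
      refine (abs_sum_le_sum_abs _ _).trans ?_
      simp_rw [abs_sg]
      rw [sum_const, nsmul_eq_mul, mul_one]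
    have hδb : ∀ y S, |δ * b y S| ≤ 1 / 2 := by
      intro y S
      rw [abs_mul]
      calc |δ| * |b y S| ≤ |δ| * 1 := mul_le_mul_of_nonneg_left (hb1 y S) (abs_nonneg _)
        _ ≤ 1 / 2 := by rw [mul_one]; exact hδ
    have hpos : ∀ y S, 0 < 1 + δ * b y S := by
      intro y S
      have := abs_le.mp (hδb y S)
      linarith
    -- the sum of the likelihood ratios
    have h1 : ∀ S, ∑ φ ∈ Fintype.piFinset C, LR δ S φ = N * ∏ y, (1 + δ * b y S) := by
      intro S
      unfold LR
      have h2 := Finset.prod_univ_sum C (fun _ ψ => 1 + δ * sg (ψ S))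
      rw [← h2, hNp, ← prod_mul_distrib]
      apply prod_congr rfl
      intro y _
      rw [sum_add_distrib, ← mul_sum, sum_const, nsmul_eq_mul, mul_one]
      simp only [hb]
      have := (hc y).ne'
      field_simp
    -- the linear term
    have h2 : ∀ S, ∑ φ ∈ Fintype.piFinset C, δ * ∑ y, sg (φ y S) = N * ∑ y, δ * b y S := by
      intro S
      rw [← mul_sum, sum_comm, mul_sum, mul_sum]
      apply sum_congr rfl
      intro y _
      have h3 := sum_pi_one C y (fun ψ => sg (ψ S))
      simp only [hb]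
      have h4 : ∑ φ ∈ Fintype.piFinset C, sg (φ y S) =
          N * ((∑ ψ ∈ C y, sg (ψ S)) / (C y).card) := by
        rw [← mul_div_assoc, eq_div_iff (hc y).ne']
        exact h3
      rw [h4]
      ring
    -- one coordinate
    have h3 : ∀ S, N * ∑ y, δ * b y S - 2 * δ ^ 2 * (N * ∑ y, b y S ^ 2) ≤
        ∑ φ ∈ Fintype.piFinset C,
          (LR δ S φ * (1 / 2 + 3 / 2 * o) - 1 + Real.log 2 * (1 - 2 * o)) := by
      intro S
      have e1 : ∑ φ ∈ Fintype.piFinset C,
          (LR δ S φ * (1 / 2 + 3 / 2 * o) - 1 + Real.log 2 * (1 - 2 * o)) =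
          N * ((∏ y, (1 + δ * b y S)) * (1 / 2 + 3 / 2 * o) - 1 +
            Real.log 2 * (1 - 2 * o)) := by
        rw [sum_add_distrib, sum_sub_distrib, ← sum_mul, h1, sum_const, sum_const, nsmul_eq_mul,
          nsmul_eq_mul]
        ring
      rw [e1]
      have e2 := leaf_one (prod_pos fun y (_ : y ∈ univ) => hpos y S) ho
      have e3 : ∑ y, (δ * b y S - 2 * (δ * b y S) ^ 2) ≤
          Real.log (∏ y, (1 + δ * b y S)) := by
        rw [Real.log_prod (fun y _ => (hpos y S).ne')]
        apply sum_le_sum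
        intro y _
        exact log_lower2 (hδb y S)
      have e4 : ∑ y, (δ * b y S - 2 * (δ * b y S) ^ 2) =
          ∑ y, δ * b y S - 2 * δ ^ 2 * ∑ y, b y S ^ 2 := by
        rw [sum_sub_distrib, mul_sum]
        congr 1
        apply sum_congr rfl
        intro y _
        ring
      have e5 := mul_le_mul_of_nonneg_left (e3.trans e2) hN0.le
      rw [e4] at e5
      linarith
    -- all coordinates
    have h4 : ∑ S ∈ K, ∑ y, b y S ^ 2 ≤
        2 * Real.log ((Fintype.card (Y → ι → Bool) : ℝ) / N) := by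
      rw [sum_comm]
      have e1 : Real.log ((Fintype.card (Y → ι → Bool) : ℝ) / N) =
          ∑ y, Real.log ((Fintype.card (ι → Bool) : ℝ) / (C y).card) := by
        rw [← Real.log_prod]
        · congr 1
          rw [prod_div_distrib, ← hNp, prod_const, card_univ]
          congr 1
          rw [Fintype.card_fun (α := Y)]
          push_cast
          rfl
        · intro y _
          have h5 : (0 : ℝ) < Fintype.card (ι → Bool) := by exact_mod_cast Fintype.card_pos
          exact (div_pos h5 (hc y)).ne'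
      rw [e1, mul_sum]
      apply sum_le_sum
      intro y _
      exact level_one (C y) (hCy y) K
    have h5 : ∑ S ∈ K, (N * ∑ y, δ * b y S - 2 * δ ^ 2 * (N * ∑ y, b y S ^ 2)) ≤
        ∑ S ∈ K, ∑ φ ∈ Fintype.piFinset C,
          (LR δ S φ * (1 / 2 + 3 / 2 * o) - 1 + Real.log 2 * (1 - 2 * o)) :=
      sum_le_sum fun S _ => h3 S
    refine le_trans ?_ h5
    simp_rw [h2]
    rw [sum_sub_distrib]
    apply sub_le_sub_left
    rw [← mul_sum, ← mul_sum]
    have h6 := mul_le_mul_of_nonneg_left (mul_le_mul_of_nonneg_left h4 hN0.le)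
      (show 0 ≤ 2 * δ ^ 2 by positivity)
    refine h6.trans (le_of_eq ?_)
    ring

/-- the parameters for which the answer at `x` is `b` -/
theorem piFinset_update (C : Y → Finset (ι → Bool)) (x : Cube n) (b : Bool) :
    Fintype.piFinset (Function.update C (yq x) ((C (yq x)).filter fun ψ => ev x ψ = b)) =
      (Fintype.piFinset C).filter fun φ => fun_of yq ev φ x = b := by
  ext φ
  rw [mem_filter, Fintype.mem_piFinset, Fintype.mem_piFinset]
  unfold fun_of
  constructor
  · intro h
    have h1 := h (yq x)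
    rw [Function.update_self, mem_filter] at h1
    refine ⟨fun y => ?_, h1.2⟩
    by_cases hy : y = yq x
    · rw [hy]; exact h1.1
    · have h2 := h y
      rwa [Function.update_of_ne hy] at h2
  · rintro ⟨h1, h2⟩ y
    by_cases hy : y = yq x
    · rw [hy, Function.update_self, mem_filter]
      exact ⟨h1 _, h2⟩
    · rw [Function.update_of_ne hy]
      exact h1 y

theorem sum_split (C : Y → Finset (ι → Bool)) (x : Cube n) (G : (Y → ι → Bool) → ℝ) :
    ∑ φ ∈ Fintype.piFinset C, G φ =
      ∑ φ ∈ (Fintype.piFinset C).filter (fun φ => fun_of yq ev φ x = false), G φ +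
      ∑ φ ∈ (Fintype.piFinset C).filter (fun φ => fun_of yq ev φ x = true), G φ := by
  rw [← sum_filter_add_sum_filter_not (Fintype.piFinset C) (fun φ => fun_of yq ev φ x = false)]
  congr 2
  ext φ
  simp

/-- **The inequality along a tree.** -/
theorem tree_ineq {δ : ℝ} (hδ : |δ| ≤ 1 / 2) (K : Finset ι) (O : Set ℝ) (T : Tree n) :
    ∀ C : Y → Finset (ι → Bool),
    (∑ S ∈ K, ∑ φ ∈ Fintype.piFinset C, δ * ∑ y, sg (φ y S)) -
      4 * δ ^ 2 * ((Fintype.piFinset C).card *
        (Real.log ((Fintype.card (Y → ι → Bool) : ℝ) / (Fintype.piFinset C).card) +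
          T.depth * Real.log 2)) ≤
    ∑ S ∈ K, ∑ φ ∈ Fintype.piFinset C,
      (LR δ S φ * (1 / 2 + 3 / 2 * oi T O (fun_of yq ev φ)) - 1 +
        Real.log 2 * (1 - 2 * oi T O (fun_of yq ev φ))) := by
  induction T with
  | out r =>
    intro C
    have h := leaf_ineq hδ C K (o := O.indicator 1 r) (by
      by_cases hr : r ∈ O
      · right; simp [hr]
      · left; simp [hr])
    simp only [oi, Tree.eval, Tree.depth, Nat.cast_zero, zero_mul, add_zero]
    exact h
  | ask x t ih =>
    intro C
    have h0 := ih false (Function.update C (yq x) ((C (yq x)).filter fun ψ => ev x ψ = false))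
    have h1 := ih true (Function.update C (yq x) ((C (yq x)).filter fun ψ => ev x ψ = true))
    rw [piFinset_update] at h0 h1
    set C0 := (Fintype.piFinset C).filter fun φ => fun_of yq ev φ x = false with hC0
    set C1 := (Fintype.piFinset C).filter fun φ => fun_of yq ev φ x = true with hC1
    have hs : ∀ G : (Y → ι → Bool) → ℝ, ∑ φ ∈ Fintype.piFinset C, G φ =
        ∑ φ ∈ C0, G φ + ∑ φ ∈ C1, G φ := fun G => sum_split yq ev C x G
    have hcard : ((Fintype.piFinset C).card : ℝ) = (C0.card : ℝ) + C1.card := by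
      have := hs (fun _ => 1)
      simpa using this
    have e0 : ∀ φ ∈ C0, oi (t false) O (fun_of yq ev φ) = oi (Tree.ask x t) O (fun_of yq ev φ) := by
      intro φ hφ
      have := (mem_filter.mp hφ).2
      unfold oi
      simp only [Tree.eval, this]
    have e1 : ∀ φ ∈ C1, oi (t true) O (fun_of yq ev φ) = oi (Tree.ask x t) O (fun_of yq ev φ) := by
      intro φ hφ
      have := (mem_filter.mp hφ).2
      unfold oi
      simp only [Tree.eval, this]
    have hR0 : ∑ S ∈ K, ∑ φ ∈ C0, (LR δ S φ * (1 / 2 + 3 / 2 * oi (t false) O (fun_of yq ev φ)) -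
        1 + Real.log 2 * (1 - 2 * oi (t false) O (fun_of yq ev φ))) =
        ∑ S ∈ K, ∑ φ ∈ C0, (LR δ S φ * (1 / 2 + 3 / 2 * oi (Tree.ask x t) O (fun_of yq ev φ)) -
        1 + Real.log 2 * (1 - 2 * oi (Tree.ask x t) O (fun_of yq ev φ))) := by
      apply sum_congr rfl
      intro S _
      apply sum_congr rfl
      intro φ hφ
      rw [e0 φ hφ]
    have hR1 : ∑ S ∈ K, ∑ φ ∈ C1, (LR δ S φ * (1 / 2 + 3 / 2 * oi (t true) O (fun_of yq ev φ)) -
        1 + Real.log 2 * (1 - 2 * oi (t true) O (fun_of yq ev φ))) =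
        ∑ S ∈ K, ∑ φ ∈ C1, (LR δ S φ * (1 / 2 + 3 / 2 * oi (Tree.ask x t) O (fun_of yq ev φ)) -
        1 + Real.log 2 * (1 - 2 * oi (Tree.ask x t) O (fun_of yq ev φ))) := by
      apply sum_congr rfl
      intro S _
      apply sum_congr rfl
      intro φ hφ
      rw [e1 φ hφ]
    rw [hR0] at h0
    rw [hR1] at h1
    simp_rw [hs]
    rw [sum_add_distrib, sum_add_distrib, hcard]
    have hM : (0 : ℝ) < Fintype.card (Y → ι → Bool) := by exact_mod_cast Fintype.card_pos
    have hent := entropy_split hM (Nat.cast_nonneg (α := ℝ) C0.card)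
      (Nat.cast_nonneg (α := ℝ) C1.card)
    have hl2 : 0 ≤ Real.log 2 := Real.log_nonneg (by norm_num)
    have hd0 : ((t false).depth : ℝ) ≤ (Tree.ask x t).depth - 1 := by
      have : (t false).depth + 1 ≤ (Tree.ask x t).depth := by
        simp only [Tree.depth]
        have := le_max_left (t false).depth (t true).depth
        omega
      have : ((t false).depth : ℝ) + 1 ≤ (Tree.ask x t).depth := by exact_mod_cast this
      linarith
    have hd1 : ((t true).depth : ℝ) ≤ (Tree.ask x t).depth - 1 := by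
      have : (t true).depth + 1 ≤ (Tree.ask x t).depth := by
        simp only [Tree.depth]
        have := le_max_right (t false).depth (t true).depth
        omega
      have : ((t true).depth : ℝ) + 1 ≤ (Tree.ask x t).depth := by exact_mod_cast this
      linarith
    have f0 : (C0.card : ℝ) * ((t false).depth * Real.log 2) ≤
        C0.card * (((Tree.ask x t).depth - 1) * Real.log 2) :=
      mul_le_mul_of_nonneg_left (mul_le_mul_of_nonneg_right hd0 hl2) (Nat.cast_nonneg _)
    have f1 : (C1.card : ℝ) * ((t true).depth * Real.log 2) ≤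
        C1.card * (((Tree.ask x t).depth - 1) * Real.log 2) :=
      mul_le_mul_of_nonneg_left (mul_le_mul_of_nonneg_right hd1 hl2) (Nat.cast_nonneg _)
    have hδ2 : 0 ≤ 4 * δ ^ 2 := by positivity
    have key : 4 * δ ^ 2 * (C0.card * (Real.log ((Fintype.card (Y → ι → Bool) : ℝ) / C0.card) +
          (t false).depth * Real.log 2)) +
        4 * δ ^ 2 * (C1.card * (Real.log ((Fintype.card (Y → ι → Bool) : ℝ) / C1.card) +
          (t true).depth * Real.log 2)) ≤
        4 * δ ^ 2 * (((C0.card : ℝ) + C1.card) *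
          (Real.log ((Fintype.card (Y → ι → Bool) : ℝ) / ((C0.card : ℝ) + C1.card)) +
            (Tree.ask x t).depth * Real.log 2)) := by
      rw [← mul_add]
      apply mul_le_mul_of_nonneg_left _ hδ2
      linarith
    linarith

end

end Pool.Agent.Work.MP_8f25a0_lc.Cod
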