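import Pool.Agent.Work.MP_8f25a0_lc.Cod.Cells
import Pool.Agent.Work.MP_8f25a0_lc.Cod.TreeIneq

/-!
# Fixed codimension: random polynomials of degree at most `c`
-/

namespace Pool.Agent.Work.MP_8f25a0_lc.Cod

open Finset

set_option linter.unusedSectionVars false

theorem xor_left_self (a b : Bool) : xor a (xor a b) = b := by cases a <;> cases b <;> rfl

theorem sg_inj {a b : Bool} (h : sg a = sg b) : a = b := by
  cases a <;> cases b <;> simp [sg] at h ⊢ <;> linarith

/-- the parity of the number of elements of `s` with `g = true` -/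
def par2 {α : Type*} (s : Finset α) (g : α → Bool) : Bool :=
  decide (Odd (s.filter fun a => g a = true).card)

theorem sg_par2 {α : Type*} [DecidableEq α] (s : Finset α) (g : α → Bool) :
    sg (par2 s g) = ∏ a ∈ s, sg (g a) := by
  have h : ∀ k : ℕ, sg (decide (Odd k)) = (-1) ^ k := by
    intro k
    by_cases hk : Odd k
    · rw [hk.neg_one_pow]; simp [sg, hk]
    · rw [Nat.not_odd_iff_even] at hk
      rw [hk.neg_one_pow]
      simp [sg, Nat.not_odd_iff_even.mpr hk]
  unfold par2
  rw [h]
  induction s using Finset.induction_on with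
  | empty => simp
  | insert x s hx ih =>
    rw [prod_insert hx, ← ih, filter_insert]
    by_cases hg : g x = true
    · rw [if_pos hg, card_insert_of_notMem (by simp [hx]), hg, pow_succ]
      simp [sg]
    · rw [if_neg hg]
      simp [sg, hg]

section zeta

variable {α : Type*} [DecidableEq α]

/-- the zeta transform of signs is an involution -/
theorem zeta_invol (A : Finset α) : ∀ s : Finset α → ℝ, (∀ T, s T * s T = 1) →
    ∏ T ∈ A.powerset, ∏ B ∈ T.powerset, s B = s A := by
  induction A using Finset.induction_on with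
  | empty => intro s _; simp
  | insert i A hi ih =>
    intro s hs
    rw [prod_powerset_insert hi]
    have h1 : ∀ T ∈ A.powerset, ∏ B ∈ (insert i T).powerset, s B =
        (∏ B ∈ T.powerset, s B) * ∏ B ∈ T.powerset, s (insert i B) := by
      intro T hT
      rw [prod_powerset_insert]
      intro h
      exact hi (mem_powerset.mp hT h)
    rw [prod_congr rfl h1, prod_mul_distrib, ← mul_assoc]
    have h2 := ih (fun B => s (insert i B)) (fun T => hs _)
    rw [h2]
    have h3 := ih s hs
    rw [h3, hs, one_mul]

/-- the derivative in the directions of `S` -/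
theorem top_coeff (S : Finset α) : ∀ (v : Finset α) (s : Finset α → ℝ), (∀ T, s T * s T = 1) →
    Disjoint S v →
    ∏ A ∈ S.powerset, ∏ T ∈ (v ∪ A).powerset, s T = ∏ T ∈ v.powerset, s (S ∪ T) := by
  induction S using Finset.induction_on with
  | empty => intro v s _ _; simp
  | insert i S hi ih =>
    intro v s hs hd
    rw [disjoint_insert_left] at hd
    rw [prod_powerset_insert hi]
    have h1 : ∀ A ∈ S.powerset, ∏ T ∈ (v ∪ insert i A).powerset, s T =
        (∏ T ∈ (v ∪ A).powerset, s T) * ∏ T ∈ (v ∪ A).powerset, s (insert i T) := by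
      intro A hA
      rw [union_insert, prod_powerset_insert]
      intro h
      rcases mem_union.mp h with h | h
      · exact hd.1 h
      · exact hi (mem_powerset.mp hA h)
    rw [prod_congr rfl h1, prod_mul_distrib, ← mul_assoc]
    have h2 := ih v (fun B => s (insert i B)) (fun T => hs _) hd.2
    rw [h2]
    have h3 : (∏ A ∈ S.powerset, ∏ T ∈ (v ∪ A).powerset, s T) *
        (∏ A ∈ S.powerset, ∏ T ∈ (v ∪ A).powerset, s T) = 1 := by
      rw [← prod_mul_distrib]
      apply prod_eq_one
      intro A _
      rw [← prod_mul_distrib]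
      apply prod_eq_one
      intro T _
      exact hs T
    rw [h3, one_mul]
    apply prod_congr rfl
    intro T _
    rw [insert_union]

end zeta

section poly

variable {m : ℕ}

/-- the value at (the indicator of) `U` of the polynomial of degree at most `c` with the
coefficients `ψ` -/
def PV (c : ℕ) (ψ : Finset (Fin m) → Bool) (U : Finset (Fin m)) : Bool :=
  par2 (U.powerset.filter fun T => T.card ≤ c) ψ

theorem sg_PV (c : ℕ) (ψ : Finset (Fin m) → Bool) (U : Finset (Fin m)) :
    sg (PV c ψ U) = ∏ T ∈ U.powerset, if T.card ≤ c then sg (ψ T) else 1 := by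
  unfold PV
  rw [sg_par2, prod_filter]

theorem PV_xor (c : ℕ) (ψ ψ' : Finset (Fin m) → Bool) (U : Finset (Fin m)) :
    PV c (fun T => xor (ψ T) (ψ' T)) U = xor (PV c ψ U) (PV c ψ' U) := by
  apply sg_inj
  rw [sg_xor, sg_PV, sg_PV, sg_PV, ← prod_mul_distrib]
  apply prod_congr rfl
  intro T _
  split_ifs
  · exact sg_xor _ _
  · norm_num

/-- the product over a cell of dimension `c` is the top coefficient -/
theorem prod_PV {c : ℕ} (ψ : Finset (Fin m) → Bool) {S v : Finset (Fin m)} (hS : S.card = c)
    (hd : Disjoint S v) : ∏ A ∈ S.powerset, sg (PV c ψ (v ∪ A)) = sg (ψ S) := by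
  simp_rw [sg_PV]
  rw [top_coeff S v (fun T => if T.card ≤ c then sg (ψ T) else 1) ?_ hd]
  · rw [prod_eq_single ∅]
    · rw [union_empty, if_pos hS.le]
    · intro T hT hne
      rw [if_neg]
      rw [card_union_of_disjoint (hd.mono_right (mem_powerset.mp hT)), hS]
      have := card_pos.mpr (nonempty_iff_ne_empty.mpr hne)
      omega
    · intro h
      exact absurd (empty_mem_powerset v) h
  · intro T
    split_ifs
    · exact sg_mul_self _
    · norm_num

/-- interpolation on a cell of dimension at most `c` -/
theorem solve {c : ℕ} {S u : Finset (Fin m)} (hS : S.card ≤ c) (hd : Disjoint S u)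
    (h : Finset (Fin m) → Bool) : ∃ ψ : Finset (Fin m) → Bool, ∀ A ⊆ S,
      PV c ψ (u ∪ A) = h (u ∪ A) := by
  refine ⟨fun T => if T ⊆ S then par2 T.powerset (fun B => h (u ∪ B)) else false, ?_⟩
  intro A hA
  apply sg_inj
  rw [sg_PV]
  have h1 : ∀ T ∈ (u ∪ A).powerset, (if T.card ≤ c then
      sg (if T ⊆ S then par2 T.powerset (fun B => h (u ∪ B)) else false) else 1) =
      if T ⊆ S then ∏ B ∈ T.powerset, sg (h (u ∪ B)) else 1 := by
    intro T _
    by_cases hT : T ⊆ S
    · rw [if_pos ((card_le_card hT).trans hS), if_pos hT, if_pos hT, sg_par2]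
    · rw [if_neg hT, if_neg hT]
      split_ifs <;> simp [sg]
  rw [prod_congr rfl h1, ← prod_filter]
  have h2 : (u ∪ A).powerset.filter (fun T => T ⊆ S) = A.powerset := by
    ext T
    rw [mem_filter, mem_powerset, mem_powerset]
    constructor
    · rintro ⟨h1, h2⟩ i hi
      rcases mem_union.mp (h1 hi) with h3 | h3
      · exact absurd h3 (disjoint_left.mp hd (h2 hi))
      · exact h3
    · intro h1
      exact ⟨h1.trans subset_union_right, h1.trans hA⟩
  rw [h2]
  exact zeta_invol A (fun B => sg (h (u ∪ B))) (fun T => sg_mul_self _)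

end poly

section model

variable {r m : ℕ}

/-- the first coordinates -/
def yof (x : Cube (r + m)) : Cube r := fun i => x (Fin.castAdd m i)

/-- the last coordinates, as a set -/
def supp (x : Cube (r + m)) : Finset (Fin m) := univ.filter fun j => x (Fin.natAdd r j) = true

/-- the point with the given coordinates -/
def pnt (y : Cube r) (U : Finset (Fin m)) : Cube (r + m) :=
  Fin.addCases y (fun j => decide (j ∈ U))

theorem pnt_self (x : Cube (r + m)) : pnt (yof x) (supp x) = x := by
  funext i
  refine Fin.addCases (fun i => ?_) (fun j => ?_) i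
  · simp [pnt, yof]
  · simp [pnt, supp]

theorem yof_pnt (y : Cube r) (U : Finset (Fin m)) : yof (pnt y U) = y := by
  funext i; simp [yof, pnt]

theorem supp_pnt (y : Cube r) (U : Finset (Fin m)) : supp (pnt y U) = U := by
  ext j; simp [supp, pnt]

/-- the last part of a set of coordinates -/
def lastp (S : Finset (Fin (r + m))) : Finset (Fin m) := univ.filter fun j => Fin.natAdd r j ∈ S

theorem card_lastp_le (S : Finset (Fin (r + m))) : (lastp S).card ≤ S.card := by
  have h : (lastp S).image (Fin.natAdd r) ⊆ S := by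
    intro i hi
    obtain ⟨j, hj, rfl⟩ := mem_image.mp hi
    exact (mem_filter.mp hj).2
  have h2 := card_le_card h
  rwa [card_image_of_injective _ (Fin.natAdd_injective m r)] at h2

theorem supp_cell {S : Finset (Fin (r + m))} {x w : Cube (r + m)} (h : w ∈ cellS S x) :
    supp w = (supp x \ lastp S) ∪ (supp w ∩ lastp S) := by
  rw [mem_cellS] at h
  ext j
  simp only [mem_union, mem_sdiff, mem_inter, supp, lastp, mem_filter, mem_univ, true_and]
  by_cases hj : Fin.natAdd r j ∈ S
  · simp [hj]
  · rw [h _ hj]
    simp [hj]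

/-- the random function with the coefficients `φ` -/
def FF (c : ℕ) (φ : Cube r → Finset (Fin m) → Bool) : Cube (r + m) → Bool :=
  fun_of yof (fun x ψ => PV c ψ (supp x)) φ

theorem FF_apply (c : ℕ) (φ : Cube r → Finset (Fin m) → Bool) (x : Cube (r + m)) :
    FF c φ x = PV c (φ (yof x)) (supp x) := rfl

theorem FF_xor (c : ℕ) (φ φ' : Cube r → Finset (Fin m) → Bool) (x : Cube (r + m)) :
    FF c (fun y T => xor (φ y T) (φ' y T)) x = xor (FF c φ x) (FF c φ' x) := by
  rw [FF_apply, FF_apply, FF_apply]
  exact PV_xor c _ _ _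

theorem cell_solve {c : ℕ} {S : Finset (Fin (r + m))} (hS : S.card = c) (x : Cube (r + m))
    (h : Cube (r + m) → Bool) : ∃ φ : Cube r → Finset (Fin m) → Bool,
      ∀ w ∈ cellS S x, FF c φ w = h w := by
  have hS' : (lastp S).card ≤ c := (card_lastp_le S).trans hS.le
  have hd : Disjoint (lastp S) (supp x \ lastp S) := disjoint_sdiff
  choose φ hφ using fun y : Cube r => solve hS' hd (fun U => h (pnt y U))
  refine ⟨φ, ?_⟩
  intro w hw
  rw [FF_apply, supp_cell hw, hφ (yof w) _ inter_subset_right, ← supp_cell hw, pnt_self]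

/-- the functions are uniformly distributed on every cell of dimension `c` -/
theorem avg_FF {c : ℕ} {S : Finset (Fin (r + m))} (hS : S.card = c) (x : Cube (r + m))
    {G : (Cube (r + m) → Bool) → ℝ}
    (hG : ∀ f g, (∀ w ∈ cellS S x, f w = g w) → G f = G g) :
    avg (fun φ : Cube r → Finset (Fin m) → Bool => G (FF c φ)) = avg G := by
  have h1 : ∀ h : Cube (r + m) → Bool,
      avg (fun φ : Cube r → Finset (Fin m) → Bool => G (FF c φ)) =
      avg (fun φ : Cube r → Finset (Fin m) → Bool => G (fun w => xor (FF c φ w) (h w))) := by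
    intro h
    obtain ⟨φ₀, hφ₀⟩ := cell_solve hS x h
    have e := avg_equiv
      { toFun := fun φ : Cube r → Finset (Fin m) → Bool => fun y T => xor (φ y T) (φ₀ y T)
        invFun := fun φ : Cube r → Finset (Fin m) → Bool => fun y T => xor (φ y T) (φ₀ y T)
        left_inv := by intro φ; funext y T; exact xor_xor_self _ _
        right_inv := by intro φ; funext y T; exact xor_xor_self _ _ }
      (fun φ : Cube r → Finset (Fin m) → Bool => G (FF c φ))
    rw [← e]
    congr 1
    funext φ
    apply hG
    intro w hw
    simp only [Equiv.coe_fn_mk]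
    rw [FF_xor, hφ₀ w hw]
  have h2 : avg (fun φ : Cube r → Finset (Fin m) → Bool => G (FF c φ)) =
      avg (fun h : Cube (r + m) → Bool =>
        avg (fun φ : Cube r → Finset (Fin m) → Bool => G (fun w => xor (FF c φ w) (h w)))) := by
    rw [← avg_const (α := Cube (r + m) → Bool)
      (avg (fun φ : Cube r → Finset (Fin m) → Bool => G (FF c φ)))]
    congr 1
    funext h
    exact h1 h
  rw [h2, avg_comm]
  have h3 : ∀ φ : Cube r → Finset (Fin m) → Bool,
      avg (fun h : Cube (r + m) → Bool => G (fun w => xor (FF c φ w) (h w))) = avg G := by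
    intro φ
    exact avg_equiv
      { toFun := fun h : Cube (r + m) → Bool => fun w => xor (FF c φ w) (h w)
        invFun := fun h : Cube (r + m) → Bool => fun w => xor (FF c φ w) (h w)
        left_inv := by intro h; funext w; exact xor_left_self _ _
        right_inv := by intro h; funext w; exact xor_left_self _ _ } G
  simp_rw [h3]
  exact avg_const _

/-- the mean of `XS` -/
theorem avg_XS {c : ℕ} {S : Finset (Fin (r + m))} (hS : S.card = c) (x : Cube (r + m)) :
    avg (fun φ : Cube r → Finset (Fin m) → Bool => XS S (FF c φ) x) = aa c := by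
  rw [avg_FF hS x (G := fun f => XS S f x) fun f g h => XS_congr h]
  unfold XS
  have h := avg_Af (cellS S x) (fun t => |t|) 0
  simp only [zero_add, card_cellS, hS] at h
  simp_rw [hS, div_eq_mul_inv]
  rw [avg_mul_right, h]
  unfold aa
  rw [div_eq_mul_inv]

/-- the cell in the directions of a set of last coordinates -/
theorem cellS_last (S : Finset (Fin m)) (x : Cube (r + m)) :
    cellS (S.image (Fin.natAdd r)) x =
      S.powerset.image fun A => pnt (yof x) ((supp x \ S) ∪ A) := by
  have hmem : ∀ j : Fin m, Fin.natAdd r j ∈ S.image (Fin.natAdd r) ↔ j ∈ S := by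
    intro j
    rw [mem_image]
    constructor
    · rintro ⟨j', h1, h2⟩
      rwa [← Fin.natAdd_injective m r h2]
    · intro h
      exact ⟨j, h, rfl⟩
  have hfirst : ∀ i : Fin r, Fin.castAdd m i ∉ S.image (Fin.natAdd r) := by
    intro i h
    obtain ⟨j, -, hj⟩ := mem_image.mp h
    have h1 := congrArg Fin.val hj
    simp at h1
    omega
  have hlast : lastp (S.image (Fin.natAdd r)) = S := by
    ext j
    rw [lastp, mem_filter]
    simp only [mem_univ, true_and]
    exact hmem j
  ext w
  rw [mem_image]
  constructor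
  · intro h
    have h1 := supp_cell h
    rw [hlast] at h1
    refine ⟨supp w ∩ S, mem_powerset.mpr inter_subset_right, ?_⟩
    rw [← h1]
    have h2 : yof x = yof w := by
      funext i
      exact (mem_cellS.mp h _ (hfirst i)).symm
    rw [h2, pnt_self]
  · rintro ⟨A, hA, rfl⟩
    rw [mem_cellS]
    intro i
    refine Fin.addCases (fun i _ => ?_) (fun j hj => ?_) i
    · simp [pnt, yof]
    · rw [hmem] at hj
      have hjA : j ∉ A := fun h => hj (mem_powerset.mp hA h)
      simp [pnt, supp, hj, hjA]

theorem prod_cell_FF {c : ℕ} {S : Finset (Fin m)} (hS : S.card = c)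
    (φ : Cube r → Finset (Fin m) → Bool) (x : Cube (r + m)) :
    ∏ w ∈ cellS (S.image (Fin.natAdd r)) x, sg (FF c φ w) = sg (φ (yof x) S) := by
  rw [cellS_last, prod_image]
  · simp_rw [FF_apply, yof_pnt, supp_pnt]
    exact prod_PV (φ (yof x)) hS disjoint_sdiff
  · intro A hA B hB h
    have h1 := congrArg supp h
    simp only [supp_pnt] at h1
    simp only [coe_powerset, Set.mem_preimage, Set.mem_powerset_iff, coe_subset] at hA hB
    ext i
    have h2 := Finset.ext_iff.mp h1 i
    simp only [mem_union, mem_sdiff] at h2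
    by_cases hi : i ∈ S
    · simp only [hi, not_true_eq_false, and_false, false_or] at h2
      exact h2
    · exact ⟨fun h' => absurd (hA h') hi, fun h' => absurd (hB h') hi⟩

/-- the correlation of `XS` with the planted coefficient -/
theorem avg_sg_XS {c : ℕ} {S : Finset (Fin m)} (hS : S.card = c) (x : Cube (r + m)) :
    avg (fun φ : Cube r → Finset (Fin m) → Bool =>
      sg (φ (yof x) S) * XS (S.image (Fin.natAdd r)) (FF c φ) x) = tau c := by
  have hS' : (S.image (Fin.natAdd r)).card = c := by
    rw [card_image_of_injective _ (Fin.natAdd_injective m r), hS]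
  have h0 : ∀ φ : Cube r → Finset (Fin m) → Bool,
      sg (φ (yof x) S) * XS (S.image (Fin.natAdd r)) (FF c φ) x =
      (fun f : Cube (r + m) → Bool => (∏ w ∈ cellS (S.image (Fin.natAdd r)) x, sg (f w)) *
        XS (S.image (Fin.natAdd r)) f x) (FF c φ) := by
    intro φ
    simp only
    rw [prod_cell_FF hS φ x]
  simp_rw [h0]
  rw [avg_FF hS' x (G := fun f : Cube (r + m) → Bool =>
    (∏ w ∈ cellS (S.image (Fin.natAdd r)) x, sg (f w)) * XS (S.image (Fin.natAdd r)) f x)]
  · unfold XS
    have h := avg_Bf (cellS (S.image (Fin.natAdd r)) x) (fun t => |t|) 0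
    simp only [zero_add, card_cellS, hS'] at h
    simp_rw [hS', div_eq_mul_inv, ← mul_assoc]
    rw [avg_mul_right, h]
    unfold tau
    rw [div_eq_mul_inv]
  · intro f g h
    rw [XS_congr h]
    congr 1
    exact prod_congr rfl fun w hw => by rw [h w hw]

end model

end Pool.Agent.Work.MP_8f25a0_lc.Cod
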