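import Pool.Agent.Work.MP_8f25a0_lc.Cod.Cells
import Pool.Agent.Work.MP_8f25a0_lc.Upper

/-!
# Fixed codimension: a knock-out tournament among the sets of `c` coordinates
-/

namespace Pool.Agent.Work.MP_8f25a0_lc.Cod

open Finset

variable {n : ℕ}

/-- ask for the values at the points of a list, and continue with the function which has these
values there, and the value `false` elsewhere -/
def learn : List (Cube n) → ((Cube n → Bool) → Tree n) → Tree n
  | [], κ => κ fun _ => false
  | x :: l, κ => Tree.ask x fun b => learn l fun g => κ (Function.update g x b)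

/-- `f` on the list, and `false` elsewhere -/
def restr (f : Cube n → Bool) (l : List (Cube n)) (x : Cube n) : Bool :=
  if x ∈ l then f x else false

theorem eval_learn (f : Cube n → Bool) (l : List (Cube n)) (κ : (Cube n → Bool) → Tree n) :
    (learn l κ).eval f = (κ (restr f l)).eval f := by
  induction l generalizing κ with
  | nil =>
    have h : restr f [] = fun _ => false := by
      funext x; simp [restr]
    rw [h]; rfl
  | cons x l ih =>
    have h : Function.update (restr f l) x (f x) = restr f (x :: l) := by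
      funext y
      by_cases hy : y = x
      · subst hy
        simp [restr]
      · rw [Function.update_of_ne hy]
        simp [restr, hy]
    simp only [learn, Tree.eval]
    rw [ih, h]

theorem depth_learn (l : List (Cube n)) (κ : (Cube n → Bool) → Tree n) {D : ℕ}
    (h : ∀ g, (κ g).depth ≤ D) : (learn l κ).depth ≤ l.length + D := by
  induction l generalizing κ with
  | nil => simpa [learn] using h _
  | cons x l ih =>
    simp only [learn, Tree.depth, List.length_cons]
    have h1 := ih (fun g => κ (Function.update g x false)) fun g => h _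
    have h2 := ih (fun g => κ (Function.update g x true)) fun g => h _
    omega

/-- the sum of `X_{x, S}` over the sample -/
noncomputable def em {t : ℕ} (S : Finset (Fin n)) (f : Cube n → Bool) (s : Fin t → Cube n) : ℝ :=
  ∑ j, XS S f (s j)

/-- the winner of a match -/
noncomputable def win {t : ℕ} (f : Cube n → Bool) (s : Fin t → Cube n) (A B : Finset (Fin n)) :
    Finset (Fin n) :=
  if em B f s ≤ em A f s then A else B

theorem win_eq {t : ℕ} (f : Cube n → Bool) (s : Fin t → Cube n) (A B : Finset (Fin n)) :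
    win f s A B = A ∨ win f s A B = B := by
  unfold win
  split_ifs
  · exact Or.inl rfl
  · exact Or.inr rfl

/-- the points in the cells of the sample -/
def pts {t : ℕ} (s : Fin t → Cube n) (A : Finset (Fin n)) : Finset (Cube n) :=
  univ.biUnion fun j => cellS A (s j)

theorem card_pts {t : ℕ} (s : Fin t → Cube n) (A : Finset (Fin n)) :
    (pts s A).card ≤ t * 2 ^ A.card := by
  unfold pts
  refine card_biUnion_le.trans ?_
  simp_rw [card_cellS]
  simp

theorem em_congr {t : ℕ} {s : Fin t → Cube n} {A : Finset (Fin n)} {f g : Cube n → Bool}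
    (h : ∀ w ∈ pts s A, f w = g w) : em A f s = em A g s := by
  unfold em
  apply sum_congr rfl
  intro j _
  apply XS_congr
  intro w hw
  exact h w (mem_biUnion.mpr ⟨j, mem_univ _, hw⟩)

/-- the questions of a match -/
noncomputable def mtree {t : ℕ} (s : Fin t → Cube n) (A B : Finset (Fin n))
    (κ : Finset (Fin n) → Tree n) : Tree n :=
  learn ((pts s A).toList ++ (pts s B).toList) fun g => κ (win g s A B)

theorem eval_mtree {t : ℕ} (f : Cube n → Bool) (s : Fin t → Cube n) (A B : Finset (Fin n))
    (κ : Finset (Fin n) → Tree n) : (mtree s A B κ).eval f = (κ (win f s A B)).eval f := by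
  unfold mtree
  rw [eval_learn]
  have h : win (restr f ((pts s A).toList ++ (pts s B).toList)) s A B = win f s A B := by
    unfold win
    rw [em_congr (s := s) (A := A) (f := restr f ((pts s A).toList ++ (pts s B).toList)) (g := f),
      em_congr (s := s) (A := B) (f := restr f ((pts s A).toList ++ (pts s B).toList)) (g := f)]
    · intro w hw
      simp [restr, hw]
    · intro w hw
      simp [restr, hw]
  rw [h]

theorem depth_mtree {t c D : ℕ} (s : Fin t → Cube n) {A B : Finset (Fin n)} (hA : A.card = c)
    (hB : B.card = c) (κ : Finset (Fin n) → Tree n)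
    (h : ∀ C : Finset (Fin n), C.card = c → (κ C).depth ≤ D) :
    (mtree s A B κ).depth ≤ 2 * (t * 2 ^ c) + D := by
  unfold mtree
  have h1 := depth_learn ((pts s A).toList ++ (pts s B).toList) (fun g => κ (win g s A B))
    (D := D) (by
      intro g
      apply h
      rcases win_eq g s A B with h | h <;> rw [h] <;> assumption)
  have h2 := card_pts s A
  have h3 := card_pts s B
  rw [List.length_append, length_toList, length_toList] at h1
  rw [hA] at h2
  rw [hB] at h3
  omega

/-- the samples of the first `l` levels -/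
def Om (n : ℕ) (t : ℕ → ℕ) : ℕ → Type
  | 0 => Unit
  | l + 1 => Om n t l × (Fin (t (l + 1)) → Cube n)

noncomputable instance omFintype (n : ℕ) (t : ℕ → ℕ) : (l : ℕ) → Fintype (Om n t l)
  | 0 => (inferInstance : Fintype Unit)
  | l + 1 =>
    haveI := omFintype n t l
    (inferInstance : Fintype (Om n t l × (Fin (t (l + 1)) → Cube n)))

instance omNonempty (n : ℕ) (t : ℕ → ℕ) : (l : ℕ) → Nonempty (Om n t l)
  | 0 => (inferInstance : Nonempty Unit)
  | l + 1 =>
    haveI := omNonempty n t l
    (inferInstance : Nonempty (Om n t l × (Fin (t (l + 1)) → Cube n)))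

/-- the winner of the block `j` of the level `l` -/
noncomputable def W (S : ℕ → Finset (Fin n)) (t : ℕ → ℕ) (f : Cube n → Bool) :
    (l : ℕ) → (j : ℕ) → Om n t l → Finset (Fin n)
  | 0, j, _ => S j
  | l + 1, j, ω => win f ω.2 (W S t f l (2 * j) ω.1) (W S t f l (2 * j + 1) ω.1)

/-- the tournament in the block `j` of the level `l` -/
noncomputable def tourn (S : ℕ → Finset (Fin n)) (t : ℕ → ℕ) :
    (l : ℕ) → (j : ℕ) → Om n t l → (Finset (Fin n) → Tree n) → Tree n
  | 0, j, _, κ => κ (S j)
  | l + 1, j, ω, κ => tourn S t l (2 * j) ω.1 fun A =>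
      tourn S t l (2 * j + 1) ω.1 fun B => mtree ω.2 A B κ

theorem eval_tourn (S : ℕ → Finset (Fin n)) (t : ℕ → ℕ) (f : Cube n → Bool) :
    ∀ (l j : ℕ) (ω : Om n t l) (κ : Finset (Fin n) → Tree n),
      (tourn S t l j ω κ).eval f = (κ (W S t f l j ω)).eval f := by
  intro l
  induction l with
  | zero => intro j ω κ; rfl
  | succ l ih =>
    intro j ω κ
    simp only [tourn, W]
    rw [ih, ih, eval_mtree]

/-- the number of questions of a tournament -/
def num (t : ℕ → ℕ) (c : ℕ) : ℕ → ℕ
  | 0 => 0
  | l + 1 => 2 * num t c l + 2 * (t (l + 1) * 2 ^ c)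

theorem depth_tourn {c : ℕ} {S : ℕ → Finset (Fin n)} (hS : ∀ j, (S j).card = c) (t : ℕ → ℕ) :
    ∀ (l j : ℕ) (ω : Om n t l) (κ : Finset (Fin n) → Tree n) (D : ℕ),
      (∀ A : Finset (Fin n), A.card = c → (κ A).depth ≤ D) →
      (tourn S t l j ω κ).depth ≤ num t c l + D := by
  intro l
  induction l with
  | zero =>
    intro j ω κ D h
    simpa [tourn, num] using h _ (hS j)
  | succ l ih =>
    intro j ω κ D h
    simp only [tourn, num]
    have h1 := ih (2 * j) ω.1
      (fun A => tourn S t l (2 * j + 1) ω.1 fun B => mtree ω.2 A B κ)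
      (num t c l + (2 * (t (l + 1) * 2 ^ c) + D)) (by
        intro A hA
        apply ih
        intro B hB
        exact depth_mtree ω.2 hA hB κ h)
    omega

/-- one match -/
theorem match_good {t : ℕ} (f : Cube n → Bool) (A B : Finset (Fin n)) {δ : ℝ} (hδ : 0 ≤ δ) :
    avg (fun s : Fin t → Cube n =>
      if vS (win f s A B) f < max (vS A f) (vS B f) - δ then (1 : ℝ) else 0) ≤
      4 * Real.exp (-(t * (δ / 2) ^ 2 / 2)) := by
  have hA := hoeffding (Q := t) (X := XS A f) (XS_nonneg A f) (XS_le_one A f)
    (δ := δ / 2) (by positivity)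
  have hB := hoeffding (Q := t) (X := XS B f) (XS_nonneg B f) (XS_le_one B f)
    (δ := δ / 2) (by positivity)
  have key : ∀ s : Fin t → Cube n,
      (if vS (win f s A B) f < max (vS A f) (vS B f) - δ then (1 : ℝ) else 0) ≤
      (if t * (δ / 2) ≤ |(∑ j, XS A f (s j)) - t * avg (XS A f)| then (1 : ℝ) else 0) +
      (if t * (δ / 2) ≤ |(∑ j, XS B f (s j)) - t * avg (XS B f)| then (1 : ℝ) else 0) := by
    intro s
    have n1 : ∀ (p : Prop) [Decidable p], (0 : ℝ) ≤ if p then 1 else 0 := by
      intro p _; split_ifs <;> norm_num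
    by_cases hA' : t * (δ / 2) ≤ |(∑ j, XS A f (s j)) - t * avg (XS A f)|
    · rw [if_pos hA']
      have h1 : (if vS (win f s A B) f < max (vS A f) (vS B f) - δ then (1 : ℝ) else 0) ≤ 1 := by
        split_ifs <;> norm_num
      have h2 := n1 (t * (δ / 2) ≤ |(∑ j, XS B f (s j)) - t * avg (XS B f)|)
      linarith
    by_cases hB' : t * (δ / 2) ≤ |(∑ j, XS B f (s j)) - t * avg (XS B f)|
    · rw [if_pos hB']
      have h1 : (if vS (win f s A B) f < max (vS A f) (vS B f) - δ then (1 : ℝ) else 0) ≤ 1 := by
        split_ifs <;> norm_num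
      have h2 := n1 (t * (δ / 2) ≤ |(∑ j, XS A f (s j)) - t * avg (XS A f)|)
      linarith
    rw [if_neg hA', if_neg hB', if_neg]
    · norm_num
    rw [not_lt]
    rw [not_le, abs_lt] at hA' hB'
    have ht : (0 : ℝ) < t := by
      rcases Nat.eq_zero_or_pos t with h | h
      · exfalso
        subst h
        simp at hA'
      · exact_mod_cast h
    have eA : avg (XS A f) = vS A f := rfl
    have eB : avg (XS B f) = vS B f := rfl
    have eA' : (∑ j, XS A f (s j)) = em A f s := rfl
    have eB' : (∑ j, XS B f (s j)) = em B f s := rfl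
    rw [eA, eA'] at hA'
    rw [eB, eB'] at hB'
    obtain ⟨a1, a2⟩ := hA'
    obtain ⟨b1, b2⟩ := hB'
    have hcase : ∀ x y : ℝ, t * x - t * (δ / 2) < t * y + t * (δ / 2) → x - δ ≤ y := by
      intro x y h
      have h2 : t * (x - δ) < t * y := by nlinarith
      exact (lt_of_mul_lt_mul_left h2 ht.le).le
    unfold win
    rw [sub_le_iff_le_add]
    split_ifs with h
    · apply max_le
      · linarith
      · have := hcase (vS B f) (vS A f) (by linarith)
        linarith
    · rw [not_le] at h
      apply max_le
      · have := hcase (vS A f) (vS B f) (by linarith)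
        linarith
      · linarith
  refine (avg_mono key).trans ?_
  rw [avg_add]
  linarith

/-- the winner of a block is nearly as good as every member of the block -/
theorem W_good (S : ℕ → Finset (Fin n)) (t : ℕ → ℕ) (f : Cube n → Bool) {e p : ℕ → ℝ}
    (he : ∀ l, 0 ≤ e l) (hp : ∀ l, 4 * Real.exp (-(t (l + 1) * (e (l + 1) / 2) ^ 2 / 2)) ≤ p (l + 1)) :
    ∀ (l j i : ℕ), i / 2 ^ l = j →
      avg (fun ω : Om n t l =>
        if vS (W S t f l j ω) f < vS (S i) f - ∑ a ∈ range l, e (a + 1) then (1 : ℝ) else 0) ≤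
      ∑ a ∈ range l, p (a + 1) := by
  intro l
  induction l with
  | zero =>
    intro j i hij
    simp only [pow_zero, Nat.div_one] at hij
    subst hij
    simp only [range_zero, sum_empty, sub_zero]
    apply avg_le_of_forall
    intro ω
    simp [W]
  | succ l ih =>
    intro j i hij
    rw [sum_range_succ, sum_range_succ]
    have hdiv : i / 2 ^ l / 2 = j := by
      rw [Nat.div_div_eq_div_mul, ← pow_succ]; exact hij
    have hcase : i / 2 ^ l = 2 * j ∨ i / 2 ^ l = 2 * j + 1 := by omega
    have step : ∀ b : ℕ, (b = 2 * j ∨ b = 2 * j + 1) → i / 2 ^ l = b →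
        ∀ ω : Om n t (l + 1),
        (if vS (W S t f (l + 1) j ω) f <
            vS (S i) f - (∑ a ∈ range l, e (a + 1) + e (l + 1)) then (1 : ℝ) else 0) ≤
        (if vS (W S t f l b ω.1) f < vS (S i) f - ∑ a ∈ range l, e (a + 1) then (1 : ℝ) else 0) +
        (if vS (win f ω.2 (W S t f l (2 * j) ω.1) (W S t f l (2 * j + 1) ω.1)) f <
          max (vS (W S t f l (2 * j) ω.1) f) (vS (W S t f l (2 * j + 1) ω.1) f) - e (l + 1)
          then (1 : ℝ) else 0) := by
      intro b hb _ ω
      have n1 : ∀ (p : Prop) [Decidable p], (0 : ℝ) ≤ if p then 1 else 0 := by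
        intro p _; split_ifs <;> norm_num
      have hW : W S t f (l + 1) j ω =
        win f ω.2 (W S t f l (2 * j) ω.1) (W S t f l (2 * j + 1) ω.1) := rfl
      rw [hW]
      have hmax : vS (W S t f l b ω.1) f ≤
          max (vS (W S t f l (2 * j) ω.1) f) (vS (W S t f l (2 * j + 1) ω.1) f) := by
        rcases hb with rfl | rfl
        · exact le_max_left _ _
        · exact le_max_right _ _
      by_cases h1 : vS (W S t f l b ω.1) f < vS (S i) f - ∑ a ∈ range l, e (a + 1)
      · rw [if_pos h1]
        have h2 := n1 (vS (win f ω.2 (W S t f l (2 * j) ω.1) (W S t f l (2 * j + 1) ω.1)) f <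
          max (vS (W S t f l (2 * j) ω.1) f) (vS (W S t f l (2 * j + 1) ω.1) f) - e (l + 1))
        split_ifs <;> linarith
      by_cases h2 : vS (win f ω.2 (W S t f l (2 * j) ω.1) (W S t f l (2 * j + 1) ω.1)) f <
          max (vS (W S t f l (2 * j) ω.1) f) (vS (W S t f l (2 * j + 1) ω.1) f) - e (l + 1)
      · rw [if_pos h2, if_neg h1]
        split_ifs <;> norm_num
      rw [if_neg h1, if_neg h2, if_neg]
      · norm_num
      rw [not_lt] at h1 h2 ⊢
      linarith
    obtain ⟨b, hb, hib⟩ : ∃ b, (b = 2 * j ∨ b = 2 * j + 1) ∧ i / 2 ^ l = b :=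
      ⟨_, hcase, rfl⟩
    refine (avg_mono (step b hb hib)).trans ?_
    rw [avg_add]
    apply add_le_add
    · refine le_trans (le_of_eq ?_) (ih b i hib)
      have h := avg_prod (α := Om n t l) (β := Fin (t (l + 1)) → Cube n)
        (fun ω => if vS (W S t f l b ω.1) f < vS (S i) f - ∑ a ∈ range l, e (a + 1)
          then (1 : ℝ) else 0)
      refine h.trans ?_
      congr 1
      funext ω
      exact avg_const (α := Fin (t (l + 1)) → Cube n)
        (if vS (W S t f l b ω) f < vS (S i) f - ∑ a ∈ range l, e (a + 1) then (1 : ℝ) else 0)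
    · have h := avg_prod (α := Om n t l) (β := Fin (t (l + 1)) → Cube n)
        (fun ω => if vS (win f ω.2 (W S t f l (2 * j) ω.1) (W S t f l (2 * j + 1) ω.1)) f <
          max (vS (W S t f l (2 * j) ω.1) f) (vS (W S t f l (2 * j + 1) ω.1) f) - e (l + 1)
          then (1 : ℝ) else 0)
      refine (le_of_eq h).trans ?_
      have h' : ∀ ω' : Om n t l, avg (fun s : Fin (t (l + 1)) → Cube n =>
          if vS (win f s (W S t f l (2 * j) ω') (W S t f l (2 * j + 1) ω')) f <
          max (vS (W S t f l (2 * j) ω') f) (vS (W S t f l (2 * j + 1) ω') f) - e (l + 1)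
          then (1 : ℝ) else 0) ≤ p (l + 1) := fun ω' =>
        (match_good f (W S t f l (2 * j) ω') (W S t f l (2 * j + 1) ω') (he (l + 1))).trans (hp l)
      exact avg_le_of_forall (α := Om n t l) h'

end Pool.Agent.Work.MP_8f25a0_lc.Cod
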